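import Mathlib

/-!
# Definitions for Grad's question (axisymmetry of MHD equilibria)

Everything takes place in Euclidean three-space `E3`.  Subsets of finite-dimensional real normed
spaces are compared in the category of smooth maps: a map on an arbitrary subset is smooth if it
is locally the restriction of a smooth map defined on an open set of the ambient space.  The plane
is `ℂ`, regarded as a real vector space, so that the closed unit disk is `Metric.closedBall 0 1`
and the unit circle is `Metric.sphere 0 1`.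
-/

open Set
open scoped ContDiff

namespace Run7.h386

/-- Euclidean three-space. -/
abbrev E3 : Type := EuclideanSpace ℝ (Fin 3)

section Smooth

variable {E F : Type*} [NormedAddCommGroup E] [NormedSpace ℝ E]
  [NormedAddCommGroup F] [NormedSpace ℝ F]

/-- `f` is `C^∞` on the subset `A` of `E`: each point of `A` has an open neighbourhood `U` in `E`
such that `f` agrees on `A ∩ U` with some map which is `C^∞` on `U`. -/
def SmoothOn (f : E → F) (A : Set E) : Prop :=
  ∀ x ∈ A, ∃ U : Set E, IsOpen U ∧ x ∈ U ∧
    ∃ g : E → F, ContDiffOn ℝ ∞ g U ∧ EqOn f g (A ∩ U)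

/-- The subsets `A` and `B` are diffeomorphic: there are mutually inverse smooth bijections. -/
def Diffeomorphic (A : Set E) (B : Set F) : Prop :=
  ∃ (f : E → F) (g : F → E), SmoothOn f A ∧ SmoothOn g B ∧ MapsTo f A B ∧ MapsTo g B A ∧
    (∀ x ∈ A, g (f x) = x) ∧ ∀ y ∈ B, f (g y) = y

end Smooth

/-- The closed unit disk `𝔻²` in the plane. -/
def disk : Set ℂ := Metric.closedBall 0 1

/-- The unit circle `𝕊¹` in the plane. -/
def circ : Set ℂ := Metric.sphere 0 1

/-- A compact regular domain of `ℝ³`: a compact set which near each of its topological boundary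
points `x` is `{f ≤ 0}` for a smooth real function `f` with `df(x) ≠ 0`, i.e. a compact
three-dimensional submanifold with smooth boundary (the boundary being the frontier). -/
def IsCompactRegularDomain (M : Set E3) : Prop :=
  IsCompact M ∧ ∀ x ∈ frontier M, ∃ (U : Set E3) (f : E3 → ℝ), IsOpen U ∧ x ∈ U ∧
    ContDiffOn ℝ ∞ f U ∧ fderiv ℝ f x ≠ 0 ∧ M ∩ U = {y | y ∈ U ∧ f y ≤ 0}

/-- A solid toroidal domain: a compact regular domain diffeomorphic to `𝔻² × 𝕊¹`. -/
def IsSolidToroidalDomain (M : Set E3) : Prop :=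
  IsCompactRegularDomain M ∧ Diffeomorphic M (disk ×ˢ circ)

/-- `R` is `R_S`, the unique compact regular domain with boundary `S`. -/
def IsFilling (S R : Set E3) : Prop :=
  (IsCompactRegularDomain R ∧ frontier R = S) ∧
    ∀ R' : Set E3, IsCompactRegularDomain R' ∧ frontier R' = S → R' = R

/-- The entry `∂_j X_i (x)` of the Jacobian matrix of the vector field `X` on `M`. -/
noncomputable def jac (M : Set E3) (X : E3 → E3) (x : E3) (i j : Fin 3) : ℝ :=
  (fderivWithin ℝ X M x (EuclideanSpace.single j 1)) i

/-- The curl of the vector field `X` on `M`. -/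
noncomputable def curl (M : Set E3) (X : E3 → E3) (x : E3) : E3 :=
  !₂[jac M X x 2 1 - jac M X x 1 2, jac M X x 0 2 - jac M X x 2 0, jac M X x 1 0 - jac M X x 0 1]

/-- The divergence of the vector field `X` on `M`. -/
noncomputable def divergence (M : Set E3) (X : E3 → E3) (x : E3) : ℝ :=
  jac M X x 0 0 + jac M X x 1 1 + jac M X x 2 2

/-- The cross product of `ℝ³`. -/
noncomputable def cross (u v : E3) : E3 :=
  !₂[u 1 * v 2 - u 2 * v 1, u 2 * v 0 - u 0 * v 2, u 0 * v 1 - u 1 * v 0]

/-- The vector field `X` is tangent to the boundary of `M`. -/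
def TangentToBoundary (M : Set E3) (X : E3 → E3) : Prop :=
  ∀ x ∈ frontier M, X x ∈ tangentConeAt ℝ (frontier M) x

/-- `(X, p)` is an MHD equilibrium on `M`: `X` and `p` are smooth on `M`,
`curl X × X = ∇ p` and `div X = 0` in `M`, and `X` is tangent to `∂M`. -/
structure IsMHDEquilibrium (M : Set E3) (X : E3 → E3) (p : E3 → ℝ) : Prop where
  smooth_field : SmoothOn X M
  smooth_pressure : SmoothOn p M
  force_balance : ∀ x ∈ M, cross (curl M X x) (X x) = gradientWithin p M x
  div_free : ∀ x ∈ M, divergence M X x = 0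
  tangent : TangentToBoundary M X

/-- A compact embedded 1-dimensional submanifold of `ℝ³`: a compact set which near each of its
points `x` is `{f = 0}` for a smooth map `f` to the plane with surjective differential at `x`. -/
def IsCompactEmbeddedCurve (γ : Set E3) : Prop :=
  IsCompact γ ∧ ∀ x ∈ γ, ∃ (U : Set E3) (f : E3 → ℂ), IsOpen U ∧ x ∈ U ∧
    ContDiffOn ℝ ∞ f U ∧ Function.Surjective (fderiv ℝ f x) ∧ γ ∩ U = {y | y ∈ U ∧ f y = 0}

/-- The level set of `p` on `M` at the value `c`. -/
def levelSet (M : Set E3) (p : E3 → ℝ) (c : ℝ) : Set E3 := {x | x ∈ M ∧ p x = c}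

/-- `S` is a regular level set of `p` on `M`: a nonempty level set at all points of which the
differential of `p` is nonzero. -/
def IsRegularLevelSet (M : Set E3) (p : E3 → ℝ) (S : Set E3) : Prop :=
  S.Nonempty ∧ (∃ c : ℝ, S = levelSet M p c) ∧ ∀ x ∈ S, fderivWithin ℝ p M x ≠ 0

/-- `p` has toroidally nested level sets on `M` with axis `γ`. -/
structure IsToroidallyNestedWithAxis (M : Set E3) (p : E3 → ℝ) (γ : Set E3) : Prop where
  curve : IsCompactEmbeddedCurve γ
  curve_subset : γ ⊆ interior M
  level : ∀ c : ℝ, (levelSet M p c).Nonempty →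
    (IsRegularLevelSet M p (levelSet M p c) ∧ Diffeomorphic (levelSet M p c) (circ ×ˢ circ)) ∨
      levelSet M p c = γ
  nested : ∀ S₁ S₂ : Set E3, IsRegularLevelSet M p S₁ → IsRegularLevelSet M p S₂ →
    ∃ R₁ R₂ : Set E3, IsFilling S₁ R₁ ∧ IsFilling S₂ R₂ ∧ (R₁ ⊆ R₂ ∨ R₂ ⊆ R₁)
  axis : ∀ S : Set E3, IsRegularLevelSet M p S → ∃ R : Set E3, IsFilling S R ∧ γ ⊆ interior R

/-- `p` has toroidally nested level sets on `M`. -/
def IsToroidallyNested (M : Set E3) (p : E3 → ℝ) : Prop :=
  ∃ γ : Set E3, IsToroidallyNestedWithAxis M p γ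

/-- The infinitesimal generator `x ↦ w × (x - a)` of the rotations about the line `a + ℝ w`
(for `w ≠ 0`). -/
noncomputable def rotationField (a w : E3) : E3 → E3 := fun x => cross w (x - a)

/-- `(X, p)` is axisymmetric on `M`: for some generator `K` of rotations of `ℝ³` about some axis,
`K` is tangent to `∂M`, `L_K X = [K, X] = 0` and `L_K p = dp(K) = 0` on `M`. -/
def IsAxisymmetric (M : Set E3) (X : E3 → E3) (p : E3 → ℝ) : Prop :=
  ∃ a w : E3, w ≠ 0 ∧ TangentToBoundary M (rotationField a w) ∧
    (∀ x ∈ M, VectorField.lieBracketWithin ℝ (rotationField a w) X M x = 0) ∧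
    ∀ x ∈ M, fderivWithin ℝ p M x (rotationField a w x) = 0

end Run7.h386
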