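import Mathlib
import Pool.Agent.Run7.h386.Defs

open Set
open scoped ContDiff

namespace Run7.h386

noncomputable section

/-- Squared radius in the unstretched coordinates. -/
def rr (x : E3) : ℝ := (x 0 / 2) ^ 2 + (x 1) ^ 2

def GG (x : E3) : ℝ := 1 - (rr x - 1) ^ 2 - (x 2) ^ 2

def FF (x : E3) : ℝ := √(GG x)

def UU : Set E3 := {x | 0 < GG x}

def X0 (x : E3) : ℝ := 2 * ((-(x 0 / 2) * x 2 - FF x * x 1) / rr x)

def X1 (x : E3) : ℝ := (-(x 1) * x 2 + FF x * (x 0 / 2)) / rr x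

def X2 (x : E3) : ℝ := 2 * (rr x - 1)

/-- The magnetic field. -/
def fieldX (x : E3) : E3 := !₂[X0 x, X1 x, X2 x]

/-- The pressure. -/
def pres (x : E3) : ℝ :=
  -(((x 0) ^ 2 + (x 1) ^ 2) / 2 + 2 * (x 2) ^ 2 + ((X0 x) ^ 2 + (X1 x) ^ 2 + (X2 x) ^ 2) / 2)

@[simp] lemma fieldX_zero (x : E3) : fieldX x 0 = X0 x := by simp [fieldX]
@[simp] lemma fieldX_one (x : E3) : fieldX x 1 = X1 x := by simp [fieldX]
@[simp] lemma fieldX_two (x : E3) : fieldX x 2 = X2 x := by simp [fieldX]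

lemma rr_nonneg (x : E3) : 0 ≤ rr x := by unfold rr; positivity

lemma rr_pos {x : E3} (hx : x ∈ UU) : 0 < rr x := by
  have h : 0 < GG x := hx
  have h0 := rr_nonneg x
  rcases h0.lt_or_eq with h1 | h1
  · exact h1
  · exfalso
    unfold GG at h
    rw [← h1] at h
    nlinarith [sq_nonneg (x 2)]

lemma FF_pos {x : E3} (hx : x ∈ UU) : 0 < FF x := Real.sqrt_pos.2 hx

lemma FF_sq {x : E3} (hx : x ∈ UU) : FF x ^ 2 = 2 * rr x - rr x ^ 2 - (x 2) ^ 2 := by
  have h : 0 ≤ GG x := le_of_lt hx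
  rw [FF, Real.sq_sqrt h, GG]; ring

lemma contDiff_coord (i : Fin 3) : ContDiff ℝ ∞ (fun x : E3 => x i) :=
  (EuclideanSpace.proj i : E3 →L[ℝ] ℝ).contDiff

lemma contDiff_rr : ContDiff ℝ ∞ rr := by
  have h0 := contDiff_coord 0
  have h1 := contDiff_coord 1
  unfold rr
  fun_prop

lemma contDiff_GG : ContDiff ℝ ∞ GG := by
  have h0 := contDiff_rr
  have h1 := contDiff_coord 2
  unfold GG
  fun_prop

lemma isOpen_UU : IsOpen UU := isOpen_lt continuous_const contDiff_GG.continuous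

lemma contDiffOn_FF : ContDiffOn ℝ ∞ FF UU := by
  intro x hx
  have h : GG x ≠ 0 := ne_of_gt hx
  exact (contDiff_GG.contDiffAt.sqrt h).contDiffWithinAt

lemma contDiffOn_X0 : ContDiffOn ℝ ∞ X0 UU := by
  have h0 := (contDiff_coord 0).contDiffOn (s := UU)
  have h1 := (contDiff_coord 1).contDiffOn (s := UU)
  have h2 := (contDiff_coord 2).contDiffOn (s := UU)
  have hr := contDiff_rr.contDiffOn (s := UU)
  have hF := contDiffOn_FF
  unfold X0
  exact contDiffOn_const.mul ((((h0.div_const 2).neg.mul h2).sub (hF.mul h1)).div hr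
    (fun x hx => (rr_pos hx).ne'))

lemma contDiffOn_X1 : ContDiffOn ℝ ∞ X1 UU := by
  have h0 := (contDiff_coord 0).contDiffOn (s := UU)
  have h1 := (contDiff_coord 1).contDiffOn (s := UU)
  have h2 := (contDiff_coord 2).contDiffOn (s := UU)
  have hr := contDiff_rr.contDiffOn (s := UU)
  have hF := contDiffOn_FF
  unfold X1
  exact ((h1.neg.mul h2).add (hF.mul (h0.div_const 2))).div hr
    (fun x hx => (rr_pos hx).ne')

lemma contDiff_X2 : ContDiff ℝ ∞ X2 := by
  have hr := contDiff_rr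
  unfold X2
  fun_prop

lemma contDiffOn_fieldX : ContDiffOn ℝ ∞ fieldX UU := by
  rw [contDiffOn_euclidean]
  intro i
  fin_cases i
  · simpa using contDiffOn_X0
  · simpa using contDiffOn_X1
  · simpa using contDiff_X2.contDiffOn

lemma contDiffOn_pres : ContDiffOn ℝ ∞ pres UU := by
  have h0 := (contDiff_coord 0).contDiffOn (s := UU)
  have h1 := (contDiff_coord 1).contDiffOn (s := UU)
  have h2 := (contDiff_coord 2).contDiffOn (s := UU)
  have k0 := contDiffOn_X0
  have k1 := contDiffOn_X1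
  have k2 := contDiff_X2.contDiffOn (s := UU)
  unfold pres
  exact (((((h0.pow 2).add (h1.pow 2)).div_const 2).add (contDiffOn_const.mul (h2.pow 2))).add
    ((((k0.pow 2).add (k1.pow 2)).add (k2.pow 2)).div_const 2)).neg

/-! ### Directional derivatives -/

lemma line_coord (x v : E3) (i : Fin 3) :
    HasDerivAt (fun t : ℝ => (x + t • v) i) (v i) 0 := by
  have : HasDerivAt (fun t : ℝ => x i + t * v i) (v i) 0 := by
    simpa using ((hasDerivAt_id (0 : ℝ)).mul_const (v i)).const_add (x i)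
  simpa using this

def drr (x v : E3) : ℝ := (x 0 / 2) * v 0 + 2 * x 1 * v 1

def dG (x v : E3) : ℝ := -(2 * (rr x - 1) * drr x v) - 2 * x 2 * v 2

lemma line_rr (x v : E3) : HasDerivAt (fun t : ℝ => rr (x + t • v)) (drr x v) 0 := by
  have h0 := ((line_coord x v 0).div_const 2).pow 2
  have h1 := (line_coord x v 1).pow 2
  have := h0.add h1
  refine this.congr_deriv ?_
  simp [drr]
  ring

lemma line_G (x v : E3) : HasDerivAt (fun t : ℝ => GG (x + t • v)) (dG x v) 0 := by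
  have h0 := ((line_rr x v).sub_const 1).pow 2
  have h1 := (line_coord x v 2).pow 2
  have := (h0.const_sub 1).sub h1
  refine this.congr_deriv ?_
  simp [dG]

lemma line_F {x : E3} (hx : x ∈ UU) (v : E3) :
    HasDerivAt (fun t : ℝ => FF (x + t • v)) (dG x v / (2 * FF x)) 0 := by
  have h : GG (x + (0 : ℝ) • v) ≠ 0 := by simpa using ne_of_gt hx
  have := (line_G x v).sqrt h
  simpa [FF] using this

def dX0 (x v : E3) : ℝ :=
  2 * (((-(v 0 / 2) * x 2 + -(x 0 / 2) * v 2 - (dG x v / (2 * FF x) * x 1 + FF x * v 1)) * rr x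
    - (-(x 0 / 2) * x 2 - FF x * x 1) * drr x v) / rr x ^ 2)

def dX1 (x v : E3) : ℝ :=
  ((-(v 1) * x 2 + -(x 1) * v 2 + (dG x v / (2 * FF x) * (x 0 / 2) + FF x * (v 0 / 2))) * rr x
    - (-(x 1) * x 2 + FF x * (x 0 / 2)) * drr x v) / rr x ^ 2

def dX2 (x v : E3) : ℝ := 2 * drr x v

lemma line_X0 {x : E3} (hx : x ∈ UU) (v : E3) :
    HasDerivAt (fun t : ℝ => X0 (x + t • v)) (dX0 x v) 0 := by
  have h0 := line_coord x v 0
  have h1 := line_coord x v 1
  have h2 := line_coord x v 2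
  have hr := line_rr x v
  have hF := line_F hx v
  have hne : rr (x + (0 : ℝ) • v) ≠ 0 := by simpa using (rr_pos hx).ne'
  have := ((((h0.div_const 2).neg.mul h2).sub (hF.mul h1)).div hr hne).const_mul 2
  refine this.congr_deriv ?_
  simp [dX0]

lemma line_X1 {x : E3} (hx : x ∈ UU) (v : E3) :
    HasDerivAt (fun t : ℝ => X1 (x + t • v)) (dX1 x v) 0 := by
  have h0 := line_coord x v 0
  have h1 := line_coord x v 1
  have h2 := line_coord x v 2
  have hr := line_rr x v
  have hF := line_F hx v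
  have hne : rr (x + (0 : ℝ) • v) ≠ 0 := by simpa using (rr_pos hx).ne'
  have := ((h1.neg.mul h2).add (hF.mul (h0.div_const 2))).div hr hne
  refine this.congr_deriv ?_
  simp [dX1]

lemma line_X2 (x v : E3) : HasDerivAt (fun t : ℝ => X2 (x + t • v)) (dX2 x v) 0 := by
  have := ((line_rr x v).sub_const 1).const_mul 2
  exact this

lemma differentiableAt_fieldX {x : E3} (hx : x ∈ UU) : DifferentiableAt ℝ fieldX x :=
  (contDiffOn_fieldX.contDiffAt (isOpen_UU.mem_nhds hx)).differentiableAt (by simp)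

lemma differentiableAt_pres {x : E3} (hx : x ∈ UU) : DifferentiableAt ℝ pres x :=
  (contDiffOn_pres.contDiffAt (isOpen_UU.mem_nhds hx)).differentiableAt (by simp)

lemma fderiv_comp_coord {Y : E3 → E3} {x : E3} (hY : DifferentiableAt ℝ Y x) (v : E3)
    (i : Fin 3) : (fderiv ℝ Y x v) i = fderiv ℝ (fun y => Y y i) x v := by
  have h1 : HasFDerivAt (fun y => Y y i)
      ((EuclideanSpace.proj i : E3 →L[ℝ] ℝ).comp (fderiv ℝ Y x)) x :=
    (EuclideanSpace.proj i : E3 →L[ℝ] ℝ).hasFDerivAt.comp x hY.hasFDerivAt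
  rw [h1.fderiv]
  rfl

lemma fderiv_of_line {f : E3 → ℝ} {x v : E3} {d : ℝ} (hf : DifferentiableAt ℝ f x)
    (h : HasDerivAt (fun t : ℝ => f (x + t • v)) d 0) : fderiv ℝ f x v = d := by
  rw [← hf.lineDeriv_eq_fderiv]
  exact HasLineDerivAt.lineDeriv h

lemma fderiv_fieldX_0 {x : E3} (hx : x ∈ UU) (v : E3) : (fderiv ℝ fieldX x v) 0 = dX0 x v := by
  rw [fderiv_comp_coord (differentiableAt_fieldX hx)]
  apply fderiv_of_line
  · simpa using (contDiffOn_X0.contDiffAt (isOpen_UU.mem_nhds hx)).differentiableAt (by simp)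
  · simpa using line_X0 hx v

lemma fderiv_fieldX_1 {x : E3} (hx : x ∈ UU) (v : E3) : (fderiv ℝ fieldX x v) 1 = dX1 x v := by
  rw [fderiv_comp_coord (differentiableAt_fieldX hx)]
  apply fderiv_of_line
  · simpa using (contDiffOn_X1.contDiffAt (isOpen_UU.mem_nhds hx)).differentiableAt (by simp)
  · simpa using line_X1 hx v

lemma fderiv_fieldX_2 {x : E3} (hx : x ∈ UU) (v : E3) : (fderiv ℝ fieldX x v) 2 = dX2 x v := by
  rw [fderiv_comp_coord (differentiableAt_fieldX hx)]
  apply fderiv_of_line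
  · simpa using (contDiff_X2.contDiffAt (x := x)).differentiableAt (by simp)
  · simpa using line_X2 x v

lemma fderiv_pres {x : E3} (hx : x ∈ UU) (v : E3) : fderiv ℝ pres x v =
    -(x 0 * v 0 + x 1 * v 1 + 4 * x 2 * v 2 + X0 x * dX0 x v + X1 x * dX1 x v
      + X2 x * dX2 x v) := by
  apply fderiv_of_line (differentiableAt_pres hx)
  have h0 := (line_coord x v 0).pow 2
  have h1 := (line_coord x v 1).pow 2
  have h2 := (line_coord x v 2).pow 2
  have k0 := (line_X0 hx v).pow 2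
  have k1 := (line_X1 hx v).pow 2
  have k2 := (line_X2 x v).pow 2
  have := ((((h0.add h1).div_const 2).add (h2.const_mul 2)).add
    (((k0.add k1).add k2).div_const 2)).neg
  refine this.congr_deriv ?_
  simp
  ring

/-! ### The equations -/

/-- `(X · ∇) X = -(x₀, x₁, 4 x₂)`. -/
lemma convective {x : E3} (hx : x ∈ UU) :
    dX0 x (fieldX x) = - x 0 ∧ dX1 x (fieldX x) = - x 1 ∧ dX2 x (fieldX x) = - (4 * x 2) := by
  have hr := rr_pos hx
  have hF := FF_pos hx
  have hF2 := FF_sq hx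
  have hrr : rr x = (x 0 / 2) ^ 2 + (x 1) ^ 2 := rfl
  have hd : drr x (fieldX x) = - 2 * x 2 := by
    simp only [drr, fieldX_zero, fieldX_one, X0, X1]
    field_simp
    rw [hrr]
    ring
  have hdG : dG x (fieldX x) = 0 := by
    simp only [dG, hd, fieldX_two, X2]
    ring
  refine ⟨?_, ?_, ?_⟩
  · simp only [dX0, hd, hdG, fieldX_zero, fieldX_one, fieldX_two, X0, X1, X2]
    field_simp
    linear_combination (-(FF x * x 0)) * hF2
  · simp only [dX1, hd, hdG, fieldX_zero, fieldX_one, fieldX_two, X0, X1, X2]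
    field_simp
    linear_combination (-(4 * FF x * x 1)) * hF2
  · simp only [dX2, hd]
    ring

/-- The standard basis vectors. -/
abbrev ee (j : Fin 3) : E3 := EuclideanSpace.single j 1

lemma div_zero {x : E3} (hx : x ∈ UU) :
    dX0 x (ee 0) + dX1 x (ee 1) + dX2 x (ee 2) = 0 := by
  have hr := rr_pos hx
  have hF := FF_pos hx
  have hF2 := FF_sq hx
  have hrr : rr x = (x 0 / 2) ^ 2 + (x 1) ^ 2 := rfl
  simp only [dX0, dX1, dX2, dG, drr, ee]
  simp
  field_simp
  linear_combination (-(4 * FF x * x 2)) * hrr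

/-- The pressure gradient: `(curl X) × X = ∇ p`, in coordinates. -/
lemma force_coord {x : E3} (hx : x ∈ UU) :
    (dX0 x (ee 2) - dX2 x (ee 0)) * X2 x - (dX1 x (ee 0) - dX0 x (ee 1)) * X1 x
        = fderiv ℝ pres x (ee 0) ∧
    (dX1 x (ee 0) - dX0 x (ee 1)) * X0 x - (dX2 x (ee 1) - dX1 x (ee 2)) * X2 x
        = fderiv ℝ pres x (ee 1) ∧
    (dX2 x (ee 1) - dX1 x (ee 2)) * X1 x - (dX0 x (ee 2) - dX2 x (ee 0)) * X0 x
        = fderiv ℝ pres x (ee 2) := by
  have key : ∀ i : Fin 3, (fderiv ℝ fieldX x (fieldX x)) i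
      = X0 x * (fderiv ℝ fieldX x (ee 0)) i + X1 x * (fderiv ℝ fieldX x (ee 1)) i
        + X2 x * (fderiv ℝ fieldX x (ee 2)) i := by
    intro i
    have : fieldX x = X0 x • ee 0 + X1 x • ee 1 + X2 x • ee 2 := by
      ext j
      fin_cases j <;> simp [ee]
    conv_lhs => rw [this]
    simp
  obtain ⟨c0, c1, c2⟩ := convective hx
  have k0 := key 0
  have k1 := key 1
  have k2 := key 2
  rw [fderiv_fieldX_0 hx, fderiv_fieldX_0 hx, fderiv_fieldX_0 hx, fderiv_fieldX_0 hx, c0] at k0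
  rw [fderiv_fieldX_1 hx, fderiv_fieldX_1 hx, fderiv_fieldX_1 hx, fderiv_fieldX_1 hx, c1] at k1
  rw [fderiv_fieldX_2 hx, fderiv_fieldX_2 hx, fderiv_fieldX_2 hx, fderiv_fieldX_2 hx, c2] at k2
  refine ⟨?_, ?_, ?_⟩
  · rw [fderiv_pres hx]
    simp [ee]
    linear_combination -k0
  · rw [fderiv_pres hx]
    simp [ee]
    linear_combination -k1
  · rw [fderiv_pres hx]
    simp [ee]
    linear_combination -k2

end

end Run7.h386
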