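import Mathlib
import Pool.Agent.Run7.h386.Field

open Set
open scoped ContDiff ComplexConjugate

namespace Run7.h386

noncomputable section

/-! ### The parametrisation `Phi` of `UU` by (open disk) × circle and its inverse -/

/-- `√(1 - |ξ|²)`. -/
def rad (ξ : ℂ) : ℝ := √(1 - (ξ.re ^ 2 + ξ.im ^ 2))

def nrm (ξ : ℂ) : ℝ := √(2 * (1 + rad ξ))

def zeta (ξ w : ℂ) : ℂ := (w * ((1 + rad ξ : ℝ) : ℂ) + ξ * conj w) / ((nrm ξ : ℝ) : ℂ)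

def Phi (q : ℂ × ℂ) : E3 :=
  !₂[2 * (zeta q.1 q.2).re, (zeta q.1 q.2).im, -(q.1 * (conj q.2) ^ 2).im]

def nn (x : E3) : ℝ := √(2 * (1 + FF x))

def ww (x : E3) : ℂ :=
  (⟨x 0 / 2, x 1⟩ : ℂ) * (⟨rr x + FF x, x 2⟩ : ℂ) / ((rr x * nn x : ℝ) : ℂ)

def qq (x : E3) : ℂ := ⟨rr x - 1, - x 2⟩

def xi (x : E3) : ℂ := qq x * (ww x) ^ 2

def Psi (x : E3) : ℂ × ℂ := (xi x, ww x)

lemma Phi_zero (q : ℂ × ℂ) : Phi q 0 = 2 * (zeta q.1 q.2).re := by simp [Phi]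
lemma Phi_one (q : ℂ × ℂ) : Phi q 1 = (zeta q.1 q.2).im := by simp [Phi]
lemma Phi_two (q : ℂ × ℂ) : Phi q 2 = -(q.1 * (conj q.2) ^ 2).im := by simp [Phi]

lemma rad_nonneg (ξ : ℂ) : 0 ≤ rad ξ := Real.sqrt_nonneg _

lemma nrm_pos (ξ : ℂ) : 0 < nrm ξ := by
  have := rad_nonneg ξ
  unfold nrm
  positivity

lemma nrm_sq (ξ : ℂ) : nrm ξ ^ 2 = 2 * (1 + rad ξ) := by
  have := rad_nonneg ξ
  unfold nrm
  rw [Real.sq_sqrt (by positivity)]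

lemma normsq_eq (ξ : ℂ) : ξ.re ^ 2 + ξ.im ^ 2 = ‖ξ‖ ^ 2 := by
  rw [← Complex.normSq_eq_norm_sq, Complex.normSq_apply]; ring

lemma rad_sq {ξ : ℂ} (h : ‖ξ‖ ≤ 1) : rad ξ ^ 2 = 1 - ‖ξ‖ ^ 2 := by
  unfold rad
  rw [normsq_eq, Real.sq_sqrt]
  nlinarith [norm_nonneg ξ]

lemma rad_pos {ξ : ℂ} (h : ‖ξ‖ < 1) : 0 < rad ξ := by
  unfold rad
  rw [normsq_eq]
  apply Real.sqrt_pos.2
  nlinarith [norm_nonneg ξ]

lemma conj_mul_self {w : ℂ} (h : ‖w‖ = 1) : w * conj w = 1 := by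
  rw [Complex.mul_conj, Complex.normSq_eq_norm_sq, h]; simp

/-- `zeta = w (1 + F + q) / n` with `q = ξ \bar w²`. -/
lemma zeta_eq {ξ w : ℂ} (h : ‖w‖ = 1) :
    zeta ξ w = w * ((1 + rad ξ : ℝ) + ξ * (conj w) ^ 2) / ((nrm ξ : ℝ) : ℂ) := by
  have := conj_mul_self h
  unfold zeta
  congr 1
  linear_combination (-(ξ * conj w)) * this

lemma normSq_add_real (q : ℂ) (a : ℝ) :
    Complex.normSq ((a : ℂ) + q) = a ^ 2 + 2 * a * q.re + ‖q‖ ^ 2 := by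
  rw [← normsq_eq, Complex.normSq_apply]
  simp
  ring

lemma norm_q {ξ w : ℂ} (h : ‖w‖ = 1) : ‖ξ * (conj w) ^ 2‖ = ‖ξ‖ := by
  simp [h]

lemma rr_Phi {ξ w : ℂ} (hξ : ‖ξ‖ ≤ 1) (h : ‖w‖ = 1) :
    rr (Phi (ξ, w)) = 1 + (ξ * (conj w) ^ 2).re := by
  have h1 : rr (Phi (ξ, w)) = Complex.normSq (zeta ξ w) := by
    rw [rr, Phi_zero, Phi_one, Complex.normSq_apply]; ring
  have hn := nrm_sq ξ
  have hnp := nrm_pos ξ
  have hr := rad_sq hξ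
  have hr0 := rad_nonneg ξ
  rw [h1, zeta_eq h, Complex.normSq_div, Complex.normSq_mul, normSq_add_real, norm_q h,
    Complex.normSq_ofReal, Complex.normSq_eq_norm_sq w, h]
  rw [show nrm ξ * nrm ξ = 2 * (1 + rad ξ) by rw [← hn]; ring]
  field_simp
  linear_combination hr

lemma GG_Phi {ξ w : ℂ} (hξ : ‖ξ‖ ≤ 1) (h : ‖w‖ = 1) : GG (Phi (ξ, w)) = 1 - ‖ξ‖ ^ 2 := by
  rw [GG, rr_Phi hξ h, Phi_two, ← norm_q (ξ := ξ) h, ← normsq_eq]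
  ring

lemma Phi_mem {ξ w : ℂ} (hξ : ‖ξ‖ < 1) (h : ‖w‖ = 1) : Phi (ξ, w) ∈ UU := by
  change 0 < GG _
  rw [GG_Phi hξ.le h]
  nlinarith [norm_nonneg ξ]

lemma FF_Phi {ξ w : ℂ} (hξ : ‖ξ‖ ≤ 1) (h : ‖w‖ = 1) : FF (Phi (ξ, w)) = rad ξ := by
  rw [FF, GG_Phi hξ h, rad, normsq_eq]

lemma nn_Phi {ξ w : ℂ} (hξ : ‖ξ‖ ≤ 1) (h : ‖w‖ = 1) : nn (Phi (ξ, w)) = nrm ξ := by
  rw [nn, FF_Phi hξ h, nrm]

lemma qq_Phi {ξ w : ℂ} (hξ : ‖ξ‖ ≤ 1) (h : ‖w‖ = 1) :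
    qq (Phi (ξ, w)) = ξ * (conj w) ^ 2 := by
  apply Complex.ext
  · simp only [qq]; rw [rr_Phi hξ h]; ring
  · simp only [qq, Phi_two]; ring

lemma ww_Phi {ξ w : ℂ} (hξ : ‖ξ‖ < 1) (h : ‖w‖ = 1) : ww (Phi (ξ, w)) = w := by
  set q := ξ * (conj w) ^ 2 with hq
  have hr := rr_pos (Phi_mem hξ h)
  have h1 : (⟨Phi (ξ, w) 0 / 2, Phi (ξ, w) 1⟩ : ℂ) = zeta ξ w := by
    apply Complex.ext
    · simp only [Phi_zero]; ring
    · simp only [Phi_one]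
  have h2 : (⟨rr (Phi (ξ, w)) + FF (Phi (ξ, w)), Phi (ξ, w) 2⟩ : ℂ)
      = ((1 + rad ξ : ℝ) : ℂ) + conj q := by
    have e1 : rr (Phi (ξ, w)) = 1 + q.re := rr_Phi hξ.le h
    have e2 : Phi (ξ, w) 2 = - q.im := Phi_two _
    rw [e1, e2, FF_Phi hξ.le h]
    apply Complex.ext
    · rw [Complex.add_re, Complex.conj_re, Complex.ofReal_re]; ring
    · rw [Complex.add_im, Complex.conj_im, Complex.ofReal_im]; ring
  have hnp := nrm_pos ξ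
  have hn : ((nrm ξ : ℝ) : ℂ) ^ 2 = 2 * (1 + rad ξ) := by
    exact_mod_cast nrm_sq ξ
  have hrr : rr (Phi (ξ, w)) = 1 + q.re := rr_Phi hξ.le h
  have h3 : (((1 + rad ξ : ℝ) : ℂ) + q) * (((1 + rad ξ : ℝ) : ℂ) + conj q)
      = 2 * (1 + rad ξ) * (rr (Phi (ξ, w))) := by
    have h4 : (((1 + rad ξ : ℝ) : ℂ) + q) * (((1 + rad ξ : ℝ) : ℂ) + conj q)
       = ((Complex.normSq (((1 + rad ξ : ℝ) : ℂ) + q) : ℝ) : ℂ) := by
      rw [← Complex.mul_conj]; simp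
    rw [h4, normSq_add_real, hrr, hq, norm_q h]
    have hr := rad_sq hξ.le
    rw [show ‖ξ‖ ^ 2 = 1 - rad ξ ^ 2 by linarith]
    push_cast
    ring
  rw [ww, h1, h2, nn_Phi hξ.le h, zeta_eq h, ← hq]
  have hnz : ((nrm ξ : ℝ) : ℂ) ≠ 0 := by exact_mod_cast hnp.ne'
  have hrz : ((rr (Phi (ξ, w)) : ℝ) : ℂ) ≠ 0 := by exact_mod_cast hr.ne'
  push_cast at h3 ⊢
  field_simp
  rw [hn]
  linear_combination w * h3

lemma xi_Phi {ξ w : ℂ} (hξ : ‖ξ‖ < 1) (h : ‖w‖ = 1) : xi (Phi (ξ, w)) = ξ := by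
  rw [xi, ww_Phi hξ h, qq_Phi hξ.le h]
  have := conj_mul_self h
  calc ξ * (conj w) ^ 2 * w ^ 2 = ξ * (w * conj w) ^ 2 := by ring
    _ = ξ := by rw [this]; ring

lemma Psi_Phi {ξ w : ℂ} (hξ : ‖ξ‖ < 1) (h : ‖w‖ = 1) : Psi (Phi (ξ, w)) = (ξ, w) := by
  rw [Psi, xi_Phi hξ h, ww_Phi hξ h]

/-! ### On `UU` -/

lemma nn_pos {x : E3} (hx : x ∈ UU) : 0 < nn x := by
  have := FF_pos hx
  unfold nn
  positivity

lemma nn_sq {x : E3} (hx : x ∈ UU) : nn x ^ 2 = 2 * (1 + FF x) := by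
  have := FF_pos hx
  unfold nn
  rw [Real.sq_sqrt (by positivity)]

lemma norm_ww {x : E3} (hx : x ∈ UU) : ‖ww x‖ = 1 := by
  have hr := rr_pos hx
  have hF := FF_pos hx
  have hn := nn_pos hx
  have hn2 := nn_sq hx
  have hF2 := FF_sq hx
  have h : Complex.normSq (ww x) = 1 := by
    rw [ww, Complex.normSq_div, Complex.normSq_mul, Complex.normSq_ofReal,
      Complex.normSq_mk, Complex.normSq_mk]
    rw [show x 0 / 2 * (x 0 / 2) + x 1 * x 1 = rr x by rw [rr]; ring]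
    rw [show rr x * nn x * (rr x * nn x) = rr x ^ 2 * (2 * (1 + FF x)) by rw [← hn2]; ring]
    field_simp
    linear_combination hF2
  rw [Complex.normSq_eq_norm_sq] at h
  nlinarith [norm_nonneg (ww x)]

lemma norm_qq_sq {x : E3} (hx : x ∈ UU) : ‖qq x‖ ^ 2 = 1 - FF x ^ 2 := by
  rw [← normsq_eq, FF_sq hx, qq]
  ring

lemma norm_xi {x : E3} (hx : x ∈ UU) : ‖xi x‖ = ‖qq x‖ := by
  rw [xi, norm_mul, norm_pow, norm_ww hx]; simp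

lemma norm_xi_sq {x : E3} (hx : x ∈ UU) : ‖xi x‖ ^ 2 = 1 - FF x ^ 2 := by
  rw [norm_xi hx, norm_qq_sq hx]

lemma norm_xi_lt {x : E3} (hx : x ∈ UU) : ‖xi x‖ < 1 := by
  have h1 := norm_xi_sq hx
  have h2 := FF_pos hx
  nlinarith [norm_nonneg (xi x)]

lemma rad_xi {x : E3} (hx : x ∈ UU) : rad (xi x) = FF x := by
  rw [rad, normsq_eq, norm_xi_sq hx]
  rw [show 1 - (1 - FF x ^ 2) = FF x ^ 2 by ring, Real.sqrt_sq (FF_pos hx).le]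

lemma nrm_xi {x : E3} (hx : x ∈ UU) : nrm (xi x) = nn x := by
  rw [nrm, rad_xi hx, nn]

lemma xi_conj {x : E3} (hx : x ∈ UU) : xi x * (conj (ww x)) ^ 2 = qq x := by
  have := conj_mul_self (norm_ww hx)
  calc qq x * (ww x) ^ 2 * (conj (ww x)) ^ 2 = qq x * (ww x * conj (ww x)) ^ 2 := by ring
    _ = qq x := by rw [this]; ring

lemma Phi_Psi {x : E3} (hx : x ∈ UU) : Phi (Psi x) = x := by
  have hr := rr_pos hx
  have hF := FF_pos hx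
  have hn := nn_pos hx
  have hn2 : ((nn x : ℝ) : ℂ) ^ 2 = 2 * (1 + FF x) := by exact_mod_cast nn_sq hx
  have hz : zeta (xi x) (ww x) = ⟨x 0 / 2, x 1⟩ := by
    rw [zeta_eq (norm_ww hx), xi_conj hx, rad_xi hx, nrm_xi hx, ww]
    have h3 : (⟨rr x + FF x, x 2⟩ : ℂ) * (((1 + FF x : ℝ) : ℂ) + qq x)
        = 2 * (1 + FF x) * rr x := by
      apply Complex.ext
      · simp [qq]
        linear_combination FF_sq hx
      · simp [qq]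
        ring
    have hnz : ((nn x : ℝ) : ℂ) ≠ 0 := by exact_mod_cast hn.ne'
    have hrz : ((rr x : ℝ) : ℂ) ≠ 0 := by exact_mod_cast hr.ne'
    push_cast at h3 ⊢
    field_simp
    rw [hn2]
    linear_combination (⟨x 0 / 2, x 1⟩ : ℂ) * h3
  ext i
  fin_cases i
  · simp only [Fin.zero_eta]
    rw [Phi_zero, Psi, hz]
    ring
  · simp only [Fin.mk_one]
    rw [Phi_one, Psi, hz]
  · simp only [Fin.reduceFinMk]
    rw [Phi_two, Psi, xi_conj hx, qq]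
    ring

end

end Run7.h386
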