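import Mathlib
import Pool.Agent.Run7.h386.Torus

open Set
open scoped ContDiff ComplexConjugate

namespace Run7.h386

noncomputable section

/-! ### Pressure in terms of `xi` -/

lemma xi_formula {x : E3} (hx : x ∈ UU) :
    xi x = ((⟨x 0 / 2, x 1⟩ : ℂ) ^ 2 + (⟨X0 x / 2, X1 x⟩ : ℂ) ^ 2) / 2 := by
  have hr := rr_pos hx
  have hF := FF_pos hx
  have hn := nn_pos hx
  have hn2 : ((nn x : ℝ) : ℂ) ^ 2 = 2 * (1 + FF x) := by exact_mod_cast nn_sq hx
  have hF1 : (1 : ℂ) + (FF x : ℂ) ≠ 0 := by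
    have : (1 : ℝ) + FF x ≠ 0 := by positivity
    exact_mod_cast this
  have hF2 : ((FF x : ℝ) : ℂ) ^ 2 = 2 * rr x - rr x ^ 2 - (x 2) ^ 2 := by
    exact_mod_cast FF_sq hx
  have hrz : ((rr x : ℝ) : ℂ) ≠ 0 := by exact_mod_cast hr.ne'
  have hnz : ((nn x : ℝ) : ℂ) ≠ 0 := by exact_mod_cast hn.ne'
  have hu : (⟨X0 x / 2, X1 x⟩ : ℂ) = (⟨x 0 / 2, x 1⟩ : ℂ) * (- x 2 + FF x * Complex.I) / rr x := by
    rw [eq_div_iff hrz]
    apply Complex.ext
    · simp [X0]; field_simp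
    · simp [X1]; field_simp; ring
  have hz : (⟨rr x + FF x, x 2⟩ : ℂ) = rr x + FF x + x 2 * Complex.I := by
    apply Complex.ext <;> simp
  have hq : qq x = rr x - 1 - x 2 * Complex.I := by
    apply Complex.ext <;> simp [qq]
  have hI : Complex.I ^ 2 = -1 := Complex.I_sq
  rw [xi, ww, hu, hz, hq]
  push_cast
  field_simp
  rw [hn2]
  have key : ((rr x : ℂ) - 1 - x 2 * Complex.I) * (rr x + FF x + x 2 * Complex.I) ^ 2
      = (1 + FF x) * ((rr x : ℂ) ^ 2 + (- x 2 + FF x * Complex.I) ^ 2) := by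
    linear_combination ((rr x : ℂ) + FF x + x 2 * Complex.I) * hF2 +
      (-(x 2 : ℂ) ^ 2 * rr x - 2 * x 2 ^ 2 * FF x - x 2 ^ 2 - x 2 ^ 3 * Complex.I
        - FF x ^ 2 - FF x ^ 3) * hI
  linear_combination (2 * (⟨x 0 / 2, x 1⟩ : ℂ) ^ 2) * key

lemma energy_sum {x : E3} (hx : x ∈ UU) :
    ((x 0 / 2) ^ 2 + (x 1) ^ 2) + ((X0 x / 2) ^ 2 + (X1 x) ^ 2) = 2 := by
  have hr := rr_pos hx
  have hF2 := FF_sq hx
  have hrr : rr x = (x 0 / 2) ^ 2 + (x 1) ^ 2 := rfl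
  simp only [X0, X1]
  rw [← hrr]
  field_simp
  linear_combination (4 * rr x) * hF2 - (4 * ((x 2) ^ 2 + FF x ^ 2)) * hrr

lemma pres_eq {x : E3} (hx : x ∈ UU) :
    pres x = -(71 / 32) - 2 * ‖xi x + ((3 / 8 : ℝ) : ℂ)‖ ^ 2 := by
  have h1 : (xi x).re = ((x 0 / 2) ^ 2 - (x 1) ^ 2 + (X0 x / 2) ^ 2 - (X1 x) ^ 2) / 2 := by
    rw [xi_formula hx]
    simp [sq]
    ring
  have h2 := energy_sum hx
  have h3 : ‖xi x‖ ^ 2 = (rr x - 1) ^ 2 + (x 2) ^ 2 := by
    rw [norm_xi hx, ← normsq_eq, qq]; ring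
  rw [← normsq_eq] at h3 ⊢
  simp only [Complex.add_re, Complex.ofReal_re, Complex.add_im, Complex.ofReal_im, add_zero]
  rw [pres, X2]
  linear_combination 2 * h3 + (3 / 2) * h1 - (5 / 4) * h2

/-! ### Smoothness of `Phi` and `Psi` -/

lemma contDiffOn_mk {E : Type*} [NormedAddCommGroup E] [NormedSpace ℝ E] {s : Set E}
    {f g : E → ℝ} (hf : ContDiffOn ℝ ∞ f s) (hg : ContDiffOn ℝ ∞ g s) :
    ContDiffOn ℝ ∞ (fun x => (⟨f x, g x⟩ : ℂ)) s :=
  Complex.equivRealProdCLM.symm.contDiff.comp_contDiffOn (hf.prodMk hg)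

lemma contDiffOn_re {E : Type*} [NormedAddCommGroup E] [NormedSpace ℝ E] {s : Set E}
    {f : E → ℂ} (hf : ContDiffOn ℝ ∞ f s) : ContDiffOn ℝ ∞ (fun x => (f x).re) s :=
  Complex.reCLM.contDiff.comp_contDiffOn hf

lemma contDiffOn_im {E : Type*} [NormedAddCommGroup E] [NormedSpace ℝ E] {s : Set E}
    {f : E → ℂ} (hf : ContDiffOn ℝ ∞ f s) : ContDiffOn ℝ ∞ (fun x => (f x).im) s :=
  Complex.imCLM.contDiff.comp_contDiffOn hf

lemma contDiffOn_conj {E : Type*} [NormedAddCommGroup E] [NormedSpace ℝ E] {s : Set E}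
    {f : E → ℂ} (hf : ContDiffOn ℝ ∞ f s) : ContDiffOn ℝ ∞ (fun x => conj (f x)) s :=
  Complex.conjCLE.contDiff.comp_contDiffOn hf

lemma contDiffOn_ofReal {E : Type*} [NormedAddCommGroup E] [NormedSpace ℝ E] {s : Set E}
    {f : E → ℝ} (hf : ContDiffOn ℝ ∞ f s) : ContDiffOn ℝ ∞ (fun x => (f x : ℂ)) s :=
  Complex.ofRealCLM.contDiff.comp_contDiffOn hf

lemma contDiffOn_nn : ContDiffOn ℝ ∞ nn UU := by
  intro x hx
  have h1 : ContDiffAt ℝ ∞ FF x := contDiffOn_FF.contDiffAt (isOpen_UU.mem_nhds hx)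
  have h2 := FF_pos hx
  have h3 : ContDiffAt ℝ ∞ (fun y => 2 * (1 + FF y)) x :=
    contDiffAt_const.mul (contDiffAt_const.add h1)
  exact (h3.sqrt (by positivity)).contDiffWithinAt

lemma contDiffOn_ww : ContDiffOn ℝ ∞ ww UU := by
  have h0 := (contDiff_coord 0).contDiffOn (s := UU)
  have h1 := (contDiff_coord 1).contDiffOn (s := UU)
  have h2 := (contDiff_coord 2).contDiffOn (s := UU)
  have hr := contDiff_rr.contDiffOn (s := UU)
  have hF := contDiffOn_FF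
  have hn := contDiffOn_nn
  have e1 := contDiffOn_mk (h0.div_const 2) h1
  have e2 := contDiffOn_mk (hr.add hF) h2
  have e3 := contDiffOn_ofReal ((hr.mul hn).inv
    (fun x hx => (mul_pos (rr_pos hx) (nn_pos hx)).ne'))
  refine ((e1.mul e2).mul e3).congr ?_
  intro x hx
  rw [ww, div_eq_mul_inv]
  simp

lemma contDiffOn_qq : ContDiffOn ℝ ∞ qq UU := by
  have h2 := (contDiff_coord 2).contDiffOn (s := UU)
  have hr := contDiff_rr.contDiffOn (s := UU)
  exact contDiffOn_mk (hr.sub contDiffOn_const) h2.neg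

lemma contDiffOn_xi : ContDiffOn ℝ ∞ xi UU := contDiffOn_qq.mul (contDiffOn_ww.pow 2)

lemma contDiffOn_Psi : ContDiffOn ℝ ∞ Psi UU := contDiffOn_xi.prodMk contDiffOn_ww

/-- The open domain of `Phi`. -/
def VV : Set (ℂ × ℂ) := {q | ‖q.1‖ < 1}

lemma isOpen_VV : IsOpen VV := isOpen_lt (continuous_norm.comp continuous_fst) continuous_const

lemma contDiffOn_rad : ContDiffOn ℝ ∞ (fun q : ℂ × ℂ => rad q.1) VV := by
  have e1 : ContDiffOn ℝ ∞ (fun q : ℂ × ℂ => q.1.re) VV := contDiffOn_re contDiff_fst.contDiffOn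
  have e2 : ContDiffOn ℝ ∞ (fun q : ℂ × ℂ => q.1.im) VV := contDiffOn_im contDiff_fst.contDiffOn
  have e3 : ContDiffOn ℝ ∞ (fun q : ℂ × ℂ => 1 - (q.1.re ^ 2 + q.1.im ^ 2)) VV :=
    contDiffOn_const.sub ((e1.pow 2).add (e2.pow 2))
  intro q hq
  have hq' : ‖q.1‖ < 1 := hq
  refine (e3 q hq).sqrt ?_
  rw [normsq_eq]
  nlinarith [norm_nonneg q.1]

lemma contDiffOn_nrm : ContDiffOn ℝ ∞ (fun q : ℂ × ℂ => nrm q.1) VV := by
  have e3 : ContDiffOn ℝ ∞ (fun q : ℂ × ℂ => 2 * (1 + rad q.1)) VV :=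
    contDiffOn_const.mul (contDiffOn_const.add contDiffOn_rad)
  intro q hq
  have := rad_nonneg q.1
  exact (e3 q hq).sqrt (by positivity)

lemma contDiffOn_zeta : ContDiffOn ℝ ∞ (fun q : ℂ × ℂ => zeta q.1 q.2) VV := by
  have e1 : ContDiffOn ℝ ∞ (fun q : ℂ × ℂ => q.1) VV := contDiff_fst.contDiffOn
  have e2 : ContDiffOn ℝ ∞ (fun q : ℂ × ℂ => q.2) VV := contDiff_snd.contDiffOn
  have e3 := contDiffOn_ofReal (contDiffOn_nrm.inv (fun q _ => (nrm_pos q.1).ne'))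
  have e4 := contDiffOn_ofReal (contDiffOn_const (c := (1 : ℝ)).add contDiffOn_rad)
  refine (((e2.mul e4).add (e1.mul (contDiffOn_conj e2))).mul e3).congr ?_
  intro q hq
  rw [zeta, div_eq_mul_inv]
  simp

lemma contDiffOn_Phi : ContDiffOn ℝ ∞ Phi VV := by
  have e1 : ContDiffOn ℝ ∞ (fun q : ℂ × ℂ => q.1) VV := contDiff_fst.contDiffOn
  have e2 : ContDiffOn ℝ ∞ (fun q : ℂ × ℂ => q.2) VV := contDiff_snd.contDiffOn
  rw [contDiffOn_euclidean]
  intro i
  fin_cases i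
  · simp only [Fin.zero_eta, Phi_zero]
    exact contDiffOn_const.mul (contDiffOn_re contDiffOn_zeta)
  · simp only [Fin.mk_one, Phi_one]
    exact contDiffOn_im contDiffOn_zeta
  · simp only [Fin.reduceFinMk, Phi_two]
    exact (contDiffOn_im (e1.mul ((contDiffOn_conj e2).pow 2))).neg

lemma continuous_rad : Continuous rad := by
  unfold rad
  fun_prop

lemma continuous_nrm : Continuous nrm := by
  have := continuous_rad
  unfold nrm
  fun_prop

lemma continuous_Phi : Continuous Phi := by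
  have h1 := continuous_rad
  have h2 := continuous_nrm
  have h3 : Continuous (fun q : ℂ × ℂ => zeta q.1 q.2) := by
    unfold zeta
    refine Continuous.div (by fun_prop) (by fun_prop) ?_
    intro q
    exact_mod_cast (nrm_pos q.1).ne'
  have h4 : Continuous (fun q : ℂ × ℂ => (zeta q.1 q.2).re) := Complex.continuous_re.comp h3
  have h5 : Continuous (fun q : ℂ × ℂ => (zeta q.1 q.2).im) := Complex.continuous_im.comp h3
  refine (PiLp.continuous_toLp 2 _).comp (continuous_pi ?_)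
  intro i
  have h6 : Continuous (fun q : ℂ × ℂ => -(q.1 * (conj q.2) ^ 2).im) :=
    (Complex.continuous_im.comp (continuous_fst.mul
      ((Complex.continuous_conj.comp continuous_snd).pow 2))).neg
  fin_cases i
  · exact continuous_const.mul h4
  · exact h5
  · exact h6

end

end Run7.h386
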