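import Mathlib
import Pool.Agent.Run7.h386.Smooth

open Set Filter Topology
open scoped ContDiff ComplexConjugate

namespace Run7.h386

noncomputable section

lemma hasDerivAt_E3 {c : ℝ → E3} {v : E3} {t : ℝ}
    (h : ∀ i, HasDerivAt (fun s => c s i) (v i) t) : HasDerivAt c v t := by
  have h1 : HasDerivAt (fun s => (fun i => c s i)) (fun i => v i) t := hasDerivAt_pi.2 h
  have h2 := (PiLp.continuousLinearEquiv 2 ℝ (fun _ : Fin 3 => ℝ)).symm.hasFDerivAt.comp_hasDerivAt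
    t h1
  exact h2

lemma mem_tangentCone_of_curve {S : Set E3} {c : ℝ → E3} {v : E3} (hc : HasDerivAt c v 0)
    (hS : ∀ t, c t ∈ S) : v ∈ tangentConeAt ℝ S (c 0) := by
  refine mem_tangentConeAt_of_seq (𝓝[≠] (0 : ℝ)) (fun t => t⁻¹) (fun t => c t - c 0) ?_ ?_ ?_
  · have : Tendsto (fun t => c t - c 0) (𝓝 0) (𝓝 (c 0 - c 0)) :=
      (hc.continuousAt.tendsto).sub_const _
    rw [sub_self] at this
    exact this.mono_left nhdsWithin_le_nhds
  · exact Eventually.of_forall fun t => by simpa using hS t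
  · have := hc.tendsto_slope
    refine this.congr fun t => ?_
    simp [slope]

lemma hu_formula {x : E3} (hx : x ∈ UU) :
    (⟨X0 x / 2, X1 x⟩ : ℂ) = (⟨x 0 / 2, x 1⟩ : ℂ) * (- x 2 + FF x * Complex.I) / rr x := by
  have hr := rr_pos hx
  have hrz : ((rr x : ℝ) : ℂ) ≠ 0 := by exact_mod_cast hr.ne'
  rw [eq_div_iff hrz]
  apply Complex.ext
  · simp [X0]; field_simp
  · simp [X1]; field_simp; ring

lemma velocity {x : E3} (hx : x ∈ UU) : (⟨X0 x / 2, X1 x⟩ : ℂ)
    = Complex.I * (ww x * ((1 + FF x : ℝ) : ℂ) - xi x * conj (ww x)) / ((nn x : ℝ) : ℂ) := by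
  have hr := rr_pos hx
  have hF := FF_pos hx
  have hn := nn_pos hx
  have hn2 : ((nn x : ℝ) : ℂ) ^ 2 = 2 * (1 + FF x) := by exact_mod_cast nn_sq hx
  have hF2 : ((FF x : ℝ) : ℂ) ^ 2 = 2 * rr x - rr x ^ 2 - (x 2) ^ 2 := by
    exact_mod_cast FF_sq hx
  have hrz : ((rr x : ℝ) : ℂ) ≠ 0 := by exact_mod_cast hr.ne'
  have hnz : ((nn x : ℝ) : ℂ) ≠ 0 := by exact_mod_cast hn.ne'
  have hz : (⟨rr x + FF x, x 2⟩ : ℂ) = rr x + FF x + x 2 * Complex.I := by
    apply Complex.ext <;> simp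
  have hq : qq x = rr x - 1 - x 2 * Complex.I := by
    apply Complex.ext <;> simp [qq]
  have hI : Complex.I ^ 2 = -1 := Complex.I_sq
  have h1 : xi x * conj (ww x) = qq x * ww x := by
    have := conj_mul_self (norm_ww hx)
    rw [xi]
    linear_combination (qq x * ww x) * this
  rw [hu_formula hx, h1]
  have h2 : ww x * ((1 + FF x : ℝ) : ℂ) - qq x * ww x = ww x * (1 + FF x - qq x) := by
    push_cast; ring
  rw [h2, ww, hz, hq]
  push_cast
  field_simp
  rw [hn2]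
  have key : ((rr x : ℂ) + FF x + x 2 * Complex.I) * (1 + FF x - (rr x - 1 - x 2 * Complex.I))
      = 2 * (1 + FF x) * (FF x + x 2 * Complex.I) := by
    linear_combination (-1 : ℂ) * hF2 + (x 2 : ℂ) ^ 2 * hI
  linear_combination (-(⟨x 0 / 2, x 1⟩ : ℂ) * Complex.I) * key -
    (2 * (⟨x 0 / 2, x 1⟩ : ℂ) * (1 + FF x) * x 2) * hI

/-- The curve `t ↦ Phi (ξ, w e^{it})` is the integral curve of the field. -/
lemma flow {ξ w : ℂ} (hξ : ‖ξ‖ < 1) (hw : ‖w‖ = 1) :
    HasDerivAt (fun t : ℝ => Phi (ξ, w * Complex.exp (t * Complex.I))) (fieldX (Phi (ξ, w))) 0 := by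
  have hx := Phi_mem hξ hw
  have hv := velocity hx
  rw [ww_Phi hξ hw, xi_Phi hξ hw, FF_Phi hξ.le hw, nn_Phi hξ.le hw] at hv
  have e1 : HasDerivAt (fun t : ℝ => w * Complex.exp (t * Complex.I)) (w * Complex.I) 0 := by
    have h0 : HasDerivAt (fun t : ℝ => (t : ℂ) * Complex.I) (Complex.I) 0 := by
      simpa using (Complex.ofRealCLM.hasDerivAt (x := (0 : ℝ))).mul_const Complex.I
    have h1 := (h0.cexp).const_mul w
    simpa using h1
  have e2 : HasDerivAt (fun t : ℝ => conj (w * Complex.exp (t * Complex.I)))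
      (conj (w * Complex.I)) 0 :=
    Complex.conjCLE.hasFDerivAt.comp_hasDerivAt 0 e1
  have e3 : HasDerivAt (fun t : ℝ => zeta ξ (w * Complex.exp (t * Complex.I)))
      ((w * Complex.I * ((1 + rad ξ : ℝ) : ℂ) + ξ * conj (w * Complex.I)) / ((nrm ξ : ℝ) : ℂ)) 0 :=
    ((e1.mul_const _).add (e2.const_mul ξ)).div_const _
  have e4 : (w * Complex.I * ((1 + rad ξ : ℝ) : ℂ) + ξ * conj (w * Complex.I)) / ((nrm ξ : ℝ) : ℂ)
      = (⟨X0 (Phi (ξ, w)) / 2, X1 (Phi (ξ, w))⟩ : ℂ) := by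
    rw [hv]
    congr 1
    simp
    ring
  rw [e4] at e3
  have e5 : HasDerivAt (fun t : ℝ => ξ * (conj (w * Complex.exp (t * Complex.I))) ^ 2)
      (-2 * Complex.I * (ξ * (conj w) ^ 2)) 0 := by
    have := (e2.pow 2).const_mul ξ
    refine this.congr_deriv ?_
    simp
    ring
  apply hasDerivAt_E3
  intro i
  fin_cases i
  · simp only [Fin.zero_eta, Phi_zero, fieldX_zero]
    have := (Complex.reCLM.hasFDerivAt.comp_hasDerivAt 0 e3).const_mul 2
    refine this.congr_deriv ?_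
    simp
    ring
  · simp only [Fin.mk_one, Phi_one, fieldX_one]
    have := (Complex.imCLM.hasFDerivAt.comp_hasDerivAt 0 e3)
    exact this
  · simp only [Fin.reduceFinMk, Phi_two, fieldX_two]
    have := (Complex.imCLM.hasFDerivAt.comp_hasDerivAt 0 e5).neg
    refine this.congr_deriv ?_
    rw [X2, rr_Phi hξ.le hw]
    simp

end

end Run7.h386
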