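import Mathlib
import Pool.Agent.Run7.h386.Defs

open Set Filter Topology
open scoped ContDiff

namespace Run7.h386

/-! ### General facts on compact regular domains -/

lemma crd_frontier_value {M : Set E3} (hM : IsCompactRegularDomain M) {x : E3}
    (hx : x ∈ frontier M) {U : Set E3} {f : E3 → ℝ} (hU : IsOpen U) (hxU : x ∈ U)
    (hf : ContDiffOn ℝ ∞ f U) (hMU : M ∩ U = {y | y ∈ U ∧ f y ≤ 0}) : f x = 0 := by
  have hxM : x ∈ M := hM.1.isClosed.frontier_subset hx
  have h1 : f x ≤ 0 := by
    have : x ∈ M ∩ U := ⟨hxM, hxU⟩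
    rw [hMU] at this
    exact this.2
  rcases h1.lt_or_eq with h2 | h2
  · exfalso
    have hc : ContinuousAt f x := (hf.continuousOn.continuousAt (hU.mem_nhds hxU))
    have h3 : ∀ᶠ y in 𝓝 x, f y < 0 := hc.eventually (gt_mem_nhds h2)
    have h4 : M ∈ 𝓝 x := by
      filter_upwards [h3, hU.mem_nhds hxU] with y hy1 hy2
      have : y ∈ M ∩ U := by rw [hMU]; exact ⟨hy2, hy1.le⟩
      exact this.1
    exact hx.2 (mem_interior_iff_mem_nhds.2 h4)
  · exact h2

/-- At a boundary point of a compact regular domain, there is an open half-space of directions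
which point inside. -/
lemma crd_direction {M : Set E3} (hM : IsCompactRegularDomain M) {x : E3}
    (hx : x ∈ frontier M) : ∃ L : E3 →L[ℝ] ℝ, L ≠ 0 ∧ ∀ v : E3, L v < 0 →
      ∀ᶠ t in 𝓝[>] (0 : ℝ), x + t • v ∈ interior M := by
  obtain ⟨U, f, hU, hxU, hf, hdf, hMU⟩ := hM.2 x hx
  have hfx := crd_frontier_value hM hx hU hxU hf hMU
  refine ⟨fderiv ℝ f x, hdf, fun v hv => ?_⟩
  have hd : DifferentiableAt ℝ f x :=
    (hf.contDiffAt (hU.mem_nhds hxU)).differentiableAt (by simp)
  have hline : HasDerivAt (fun t : ℝ => f (x + t • v)) (fderiv ℝ f x v) 0 := by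
    have h := hd.hasFDerivAt.hasLineDerivAt v
    exact h
  have hslope := hline.tendsto_slope_zero_right
  simp only [zero_add, zero_smul, add_zero, hfx, sub_zero] at hslope
  have h1 : ∀ᶠ t in 𝓝[>] (0 : ℝ), t⁻¹ • f (x + t • v) < 0 :=
    hslope.eventually (gt_mem_nhds hv)
  have hcont : Tendsto (fun t : ℝ => x + t • v) (𝓝[>] 0) (𝓝 x) := by
    have : Continuous (fun t : ℝ => x + t • v) := by fun_prop
    have h := this.tendsto 0
    simp only [zero_smul, add_zero] at h
    exact h.mono_left nhdsWithin_le_nhds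
  have h2 : ∀ᶠ t in 𝓝[>] (0 : ℝ), x + t • v ∈ U := hcont.eventually (hU.mem_nhds hxU)
  filter_upwards [h1, h2, self_mem_nhdsWithin] with t ht1 ht2 ht3
  have ht3' : 0 < t := ht3
  have h3 : f (x + t • v) < 0 := by
    rw [smul_eq_mul] at ht1
    by_contra hcon
    push Not at hcon
    have : 0 ≤ t⁻¹ * f (x + t • v) := by positivity
    linarith
  have hc : ContinuousAt f (x + t • v) := (hf.continuousOn.continuousAt (hU.mem_nhds ht2))
  rw [mem_interior_iff_mem_nhds]
  filter_upwards [hc.eventually (gt_mem_nhds h3), hU.mem_nhds ht2] with y hy1 hy2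
  have : y ∈ M ∩ U := by rw [hMU]; exact ⟨hy2, hy1.le⟩
  exact this.1

lemma crd_uniqueDiffOn {M : Set E3} (hM : IsCompactRegularDomain M) : UniqueDiffOn ℝ M := by
  intro x hx
  by_cases hxi : x ∈ interior M
  · exact uniqueDiffWithinAt_of_mem_nhds (mem_interior_iff_mem_nhds.1 hxi)
  · have hxf : x ∈ frontier M := ⟨subset_closure hx, hxi⟩
    obtain ⟨L, hL, hdir⟩ := crd_direction hM hxf
    have hsub : {v : E3 | L v < 0} ⊆ tangentConeAt ℝ M x := by
      intro v hv
      refine mem_tangentConeAt_of_add_smul_mem (l := 𝓝[>] (0 : ℝ)) (c := fun t => t) ?_ ?_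
      · exact tendsto_id'.mpr (nhdsGT_le_nhdsNE 0)
      · filter_upwards [hdir v hv] with t ht
        exact interior_subset ht
    have hopen : IsOpen {v : E3 | L v < 0} := isOpen_lt L.continuous continuous_const
    obtain ⟨v, hv⟩ : ∃ v, L v < 0 := by
      obtain ⟨v, hv⟩ : ∃ v, L v ≠ 0 := by
        by_contra hcon
        push Not at hcon
        exact hL (ContinuousLinearMap.ext hcon)
      rcases hv.lt_or_gt with h | h
      · exact ⟨v, h⟩
      · exact ⟨-v, by simpa using h⟩
    have htop : Submodule.span ℝ (tangentConeAt ℝ M x) = ⊤ := by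
      apply (Submodule.span ℝ (tangentConeAt ℝ M x)).eq_top_of_nonempty_interior'
      refine ⟨v, mem_interior_iff_mem_nhds.2 ?_⟩
      exact mem_of_superset (hopen.mem_nhds hv) (hsub.trans Submodule.subset_span)
    refine ⟨?_, subset_closure hx⟩
    rw [htop]
    simp

lemma crd_interior_nonempty {M : Set E3} (hM : IsCompactRegularDomain M)
    (hf : (frontier M).Nonempty) : (interior M).Nonempty := by
  obtain ⟨x, hx⟩ := hf
  obtain ⟨L, hL, hdir⟩ := crd_direction hM hx
  obtain ⟨v, hv⟩ : ∃ v, L v < 0 := by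
    obtain ⟨v, hv⟩ : ∃ v, L v ≠ 0 := by
      by_contra hcon
      push Not at hcon
      exact hL (ContinuousLinearMap.ext hcon)
    rcases hv.lt_or_gt with h | h
    · exact ⟨v, h⟩
    · exact ⟨-v, by simpa using h⟩
  obtain ⟨t, ht⟩ := (hdir v hv).exists
  exact ⟨_, ht⟩

/-- A criterion for `IsFilling`. -/
lemma isFilling_of {S R : Set E3} (hR : IsCompactRegularDomain R) (hS : frontier R = S)
    (hne : S.Nonempty) (hint : IsPreconnected (interior R)) (hext : IsPreconnected Rᶜ) :
    IsFilling S R := by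
  refine ⟨⟨hR, hS⟩, ?_⟩
  rintro R' ⟨hR', hS'⟩
  have hRcl : IsClosed R := hR.1.isClosed
  have hR'cl : IsClosed R' := hR'.1.isClosed
  -- the two pieces of the complement of `S`
  have hcompl : ∀ x, x ∉ S → x ∈ interior R' ∨ x ∈ R'ᶜ := by
    intro x hx
    by_cases h : x ∈ R'
    · left
      by_contra h2
      exact hx (hS' ▸ ⟨subset_closure h, h2⟩)
    · exact Or.inr h
  have hdisj : ∀ x, ¬ (x ∈ interior R' ∧ x ∈ R'ᶜ) := fun x h => h.2 (interior_subset h.1)
  have hintS : ∀ x ∈ interior R, x ∉ S := by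
    intro x hx hxS
    rw [← hS] at hxS
    exact hxS.2 hx
  have hextS : ∀ x ∈ Rᶜ, x ∉ S := by
    intro x hx hxS
    rw [← hS] at hxS
    exact hx (hRcl.frontier_subset hxS)
  -- exterior
  have hExt : Rᶜ ⊆ R'ᶜ := by
    by_contra hcon
    obtain ⟨x, hx, hx'⟩ := not_subset.1 hcon
    have hx1 : x ∈ interior R' := by
      rcases hcompl x (hextS x hx) with h | h
      · exact h
      · exact absurd h hx'
    have hall : Rᶜ ⊆ interior R' := by
      by_contra hcon2
      obtain ⟨y, hy, hy'⟩ := not_subset.1 hcon2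
      have hy1 : y ∈ R'ᶜ := by
        rcases hcompl y (hextS y hy) with h | h
        · exact absurd h hy'
        · exact h
      obtain ⟨z, hz⟩ := hext (interior R') R'ᶜ isOpen_interior hR'cl.isOpen_compl
        (fun z hz => hcompl z (hextS z hz)) ⟨x, hx, hx1⟩ ⟨y, hy, hy1⟩
      exact hdisj z hz.2
    -- then the whole space is bounded
    have hb : Bornology.IsBounded (univ : Set E3) := by
      have h1 := hR.1.isBounded.union hR'.1.isBounded
      refine h1.subset ?_
      intro y _
      by_cases hy : y ∈ R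
      · exact Or.inl hy
      · exact Or.inr (interior_subset (hall hy))
    exact (NormedSpace.unbounded_univ ℝ E3) hb
  have hsub1 : R' ⊆ R := by
    intro x hx
    by_contra hcon
    exact hExt hcon hx
  -- interior
  have hInt : interior R ⊆ R' := by
    by_contra hcon
    obtain ⟨x, hx, hx'⟩ := not_subset.1 hcon
    have hall : interior R ⊆ R'ᶜ := by
      by_contra hcon2
      obtain ⟨y, hy, hy'⟩ := not_subset.1 hcon2
      have hy1 : y ∈ interior R' := by
        rcases hcompl y (hintS y hy) with h | h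
        · exact h
        · exact absurd h hy'
      obtain ⟨z, hz⟩ := hint (interior R') R'ᶜ isOpen_interior hR'cl.isOpen_compl
        (fun z hz => hcompl z (hintS z hz)) ⟨y, hy, hy1⟩ ⟨x, hx, hx'⟩
      exact hdisj z hz.2
    have hR'S : R' ⊆ S := by
      intro y hy
      rw [← hS]
      exact ⟨subset_closure (hsub1 hy), fun h => hall h hy⟩
    obtain ⟨z, hz⟩ := crd_interior_nonempty hR' (by rw [hS']; exact hne)
    have hzS := hR'S (interior_subset hz)
    rw [← hS'] at hzS
    exact hzS.2 hz
  refine Subset.antisymm hsub1 ?_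
  intro x hx
  by_cases hxi : x ∈ interior R
  · exact hInt hxi
  · have : x ∈ S := by rw [← hS]; exact ⟨subset_closure hx, hxi⟩
    rw [← hS'] at this
    exact hR'cl.frontier_subset this

end Run7.h386
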