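import Mathlib
import Pool.Agent.Run7.h386.Flow
import Pool.Agent.Run7.h386.General

open Set Filter Topology
open scoped ContDiff ComplexConjugate

namespace Run7.h386

noncomputable section

/-- The centre `-3/8` of the nested circles, up to sign. -/
def sh : ℂ := ((3 / 8 : ℝ) : ℂ)

lemma norm_sh : ‖sh‖ = 3 / 8 := by
  rw [sh, Complex.norm_real]; norm_num

/-- The solid torus of size `ρ`. -/
def RR (ρ : ℝ) : Set E3 := {x | x ∈ UU ∧ ‖xi x + sh‖ ≤ ρ}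

/-- The torus of size `ρ`. -/
def SS (ρ : ℝ) : Set E3 := {x | x ∈ UU ∧ ‖xi x + sh‖ = ρ}

lemma lt_one_of {ξ : ℂ} {ρ : ℝ} (hρ : ρ ≤ 1 / 2) (h : ‖ξ + sh‖ ≤ ρ) : ‖ξ‖ < 1 := by
  have h1 : ‖ξ‖ ≤ ‖ξ + sh‖ + ‖sh‖ := by
    calc ‖ξ‖ = ‖(ξ + sh) - sh‖ := by congr 1; ring
      _ ≤ ‖ξ + sh‖ + ‖sh‖ := norm_sub_le _ _
  rw [norm_sh] at h1
  linarith

lemma RR_eq_image {ρ : ℝ} (hρ : ρ ≤ 1 / 2) :
    RR ρ = Phi '' ({ξ : ℂ | ‖ξ + sh‖ ≤ ρ} ×ˢ circ) := by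
  ext x
  constructor
  · rintro ⟨hx, h⟩
    refine ⟨Psi x, ⟨h, ?_⟩, Phi_Psi hx⟩
    simpa [circ, Psi] using norm_ww hx
  · rintro ⟨⟨ξ, w⟩, ⟨h1, h2⟩, rfl⟩
    have h1' : ‖ξ + sh‖ ≤ ρ := h1
    have hw : ‖w‖ = 1 := by simpa [circ] using h2
    have hξ := lt_one_of hρ h1'
    exact ⟨Phi_mem hξ hw, by rw [xi_Phi hξ hw]; exact h1'⟩

lemma SS_eq_image {ρ : ℝ} (hρ : ρ ≤ 1 / 2) :
    SS ρ = Phi '' ({ξ : ℂ | ‖ξ + sh‖ = ρ} ×ˢ circ) := by
  ext x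
  constructor
  · rintro ⟨hx, h⟩
    refine ⟨Psi x, ⟨h, ?_⟩, Phi_Psi hx⟩
    simpa [circ, Psi] using norm_ww hx
  · rintro ⟨⟨ξ, w⟩, ⟨h1, h2⟩, rfl⟩
    have h1' : ‖ξ + sh‖ = ρ := h1
    have hw : ‖w‖ = 1 := by simpa [circ] using h2
    have hξ := lt_one_of hρ h1'.le
    exact ⟨Phi_mem hξ hw, by rw [xi_Phi hξ hw]; exact h1'⟩

lemma closedBall_sh (ρ : ℝ) : {ξ : ℂ | ‖ξ + sh‖ ≤ ρ} = Metric.closedBall (-sh) ρ := by
  ext ξ
  simp [dist_eq_norm]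

lemma sphere_sh (ρ : ℝ) : {ξ : ℂ | ‖ξ + sh‖ = ρ} = Metric.sphere (-sh) ρ := by
  ext ξ
  simp [dist_eq_norm]

lemma ball_sh (ρ : ℝ) : {ξ : ℂ | ‖ξ + sh‖ < ρ} = Metric.ball (-sh) ρ := by
  ext ξ
  simp [dist_eq_norm]

lemma isCompact_circ : IsCompact circ := isCompact_sphere _ _

lemma isCompact_RR {ρ : ℝ} (hρ : ρ ≤ 1 / 2) : IsCompact (RR ρ) := by
  rw [RR_eq_image hρ]
  refine IsCompact.image ?_ continuous_Phi
  rw [closedBall_sh]
  exact (isCompact_closedBall _ _).prod isCompact_circ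

lemma isCompact_SS {ρ : ℝ} (hρ : ρ ≤ 1 / 2) : IsCompact (SS ρ) := by
  rw [SS_eq_image hρ]
  refine IsCompact.image ?_ continuous_Phi
  rw [sphere_sh]
  exact (isCompact_sphere _ _).prod isCompact_circ

lemma continuousOn_h : ContinuousOn (fun x => ‖xi x + sh‖) UU :=
  (contDiffOn_xi.continuousOn.add continuousOn_const).norm

lemma isOpen_int (ρ : ℝ) : IsOpen {x | x ∈ UU ∧ ‖xi x + sh‖ < ρ} := by
  have := continuousOn_h.isOpen_inter_preimage isOpen_UU (isOpen_Iio (a := ρ))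
  exact this

/-- The radial curve through `x`. -/
def ray (x : E3) (s : ℝ) : E3 := Phi (-sh + ((1 + s : ℝ) : ℂ) * (xi x + sh), ww x)

lemma ray_zero {x : E3} (hx : x ∈ UU) : ray x 0 = x := by
  have : -sh + (((1 + 0 : ℝ)) : ℂ) * (xi x + sh) = xi x := by push_cast; ring
  rw [ray, this]
  exact Phi_Psi hx

lemma continuous_ray (x : E3) : Continuous (ray x) := by
  refine continuous_Phi.comp ?_
  fun_prop

lemma ray_norm_lt {x : E3} (hx : x ∈ UU) :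
    ∀ᶠ s in 𝓝 (0 : ℝ), ‖-sh + ((1 + s : ℝ) : ℂ) * (xi x + sh)‖ < 1 := by
  have hc : Continuous (fun s : ℝ => ‖-sh + ((1 + s : ℝ) : ℂ) * (xi x + sh)‖) := by fun_prop
  have h0 := hc.tendsto 0
  have : ‖-sh + (((1 + 0 : ℝ)) : ℂ) * (xi x + sh)‖ < 1 := by
    rw [show -sh + (((1 + 0 : ℝ)) : ℂ) * (xi x + sh) = xi x by push_cast; ring]
    exact norm_xi_lt hx
  exact h0.eventually (gt_mem_nhds this)

lemma xi_ray {x : E3} (hx : x ∈ UU) :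
    ∀ᶠ s in 𝓝 (0 : ℝ), ray x s ∈ UU ∧ xi (ray x s) + sh = ((1 + s : ℝ) : ℂ) * (xi x + sh) := by
  filter_upwards [ray_norm_lt hx] with s hs
  refine ⟨Phi_mem hs (norm_ww hx), ?_⟩
  rw [ray, xi_Phi hs (norm_ww hx)]
  ring

lemma interior_RR {ρ : ℝ} (hρ0 : 0 < ρ) :
    interior (RR ρ) = {x | x ∈ UU ∧ ‖xi x + sh‖ < ρ} := by
  apply Subset.antisymm
  · intro x hx
    have hxR := interior_subset hx
    refine ⟨hxR.1, lt_of_le_of_ne hxR.2 ?_⟩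
    intro heq
    have h1 : ∀ᶠ s in 𝓝 (0 : ℝ), ray x s ∈ RR ρ := by
      have := (continuous_ray x).tendsto 0
      rw [ray_zero hxR.1] at this
      exact this.eventually (mem_interior_iff_mem_nhds.1 hx)
    have h2 : ∀ᶠ s in 𝓝[>] (0 : ℝ), False := by
      filter_upwards [h1.filter_mono nhdsWithin_le_nhds,
        (xi_ray hxR.1).filter_mono nhdsWithin_le_nhds, self_mem_nhdsWithin] with s hs1 hs2 hs3
      have hs3' : 0 < s := hs3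
      have h3 := hs1.2
      rw [hs2.2, norm_mul, heq, Complex.norm_real, Real.norm_eq_abs,
        abs_of_pos (by linarith)] at h3
      nlinarith
    exact h2.exists.elim fun _ h => h
  · apply interior_maximal _ (isOpen_int ρ)
    intro x hx
    exact ⟨hx.1, hx.2.le⟩

lemma frontier_RR {ρ : ℝ} (hρ0 : 0 < ρ) (hρ : ρ ≤ 1 / 2) : frontier (RR ρ) = SS ρ := by
  rw [(isCompact_RR hρ).isClosed.frontier_eq, interior_RR hρ0]
  ext x
  constructor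
  · rintro ⟨h1, h2⟩
    refine ⟨h1.1, le_antisymm h1.2 ?_⟩
    by_contra hcon
    push Not at hcon
    exact h2 ⟨h1.1, hcon⟩
  · rintro ⟨h1, h2⟩
    exact ⟨⟨h1, h2.le⟩, fun h => by
      have := h.2
      rw [h2] at this
      exact lt_irrefl _ this⟩

/-- The local defining function. -/
def defn (ρ : ℝ) (x : E3) : ℝ := ((xi x).re + 3 / 8) ^ 2 + (xi x).im ^ 2 - ρ ^ 2

lemma defn_eq (ρ : ℝ) (x : E3) : defn ρ x = ‖xi x + sh‖ ^ 2 - ρ ^ 2 := by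
  rw [defn, ← normsq_eq, sh]
  simp

lemma contDiffOn_defn (ρ : ℝ) : ContDiffOn ℝ ∞ (defn ρ) UU := by
  have h1 := contDiffOn_re contDiffOn_xi
  have h2 := contDiffOn_im contDiffOn_xi
  exact (((h1.add contDiffOn_const).pow 2).add (h2.pow 2)).sub contDiffOn_const

lemma differentiableAt_Phi {q : ℂ × ℂ} (hq : ‖q.1‖ < 1) : DifferentiableAt ℝ Phi q :=
  (contDiffOn_Phi.contDiffAt (isOpen_VV.mem_nhds hq)).differentiableAt (by simp)

lemma differentiableAt_ray {x : E3} (hx : x ∈ UU) : DifferentiableAt ℝ (ray x) 0 := by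
  have h1 : ‖((-sh + ((1 + (0 : ℝ) : ℝ) : ℂ) * (xi x + sh), ww x) : ℂ × ℂ).1‖ < 1 := by
    have : -sh + (((1 + 0 : ℝ)) : ℂ) * (xi x + sh) = xi x := by push_cast; ring
    simp only [this]
    exact norm_xi_lt hx
  have h2 := differentiableAt_Phi h1
  have h3 : DifferentiableAt ℝ (fun s : ℝ => ((-sh + ((1 + s : ℝ) : ℂ) * (xi x + sh), ww x) : ℂ × ℂ))
      0 := by
    have h4 : DifferentiableAt ℝ (fun s : ℝ => ((1 + s : ℝ) : ℂ)) 0 := by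
      have := Complex.ofRealCLM.differentiableAt (x := (1 + 0 : ℝ))
      exact this.comp (0 : ℝ) (by fun_prop)
    exact ((h4.mul_const _).const_add _).prodMk (differentiableAt_const _)
  exact h2.comp (0 : ℝ) h3

/-- Radial derivative of a function of the form `g (‖xi + sh‖²)` near the point. -/
lemma fderiv_ray {x : E3} (hx : x ∈ UU) {f : E3 → ℝ} (hf : DifferentiableAt ℝ f x)
    {a b : ℝ} (hfx : ∀ y ∈ UU, f y = a + b * ‖xi y + sh‖ ^ 2) :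
    fderiv ℝ f x (deriv (ray x) 0) = 2 * b * ‖xi x + sh‖ ^ 2 := by
  have h1 := (differentiableAt_ray hx).hasDerivAt
  have hf' : DifferentiableAt ℝ f (ray x 0) := by rw [ray_zero hx]; exact hf
  have h2 := hf'.hasFDerivAt.comp_hasDerivAt (0 : ℝ) h1
  rw [ray_zero hx] at h2
  have h3 : HasDerivAt (fun s : ℝ => a + b * ((1 + s) ^ 2 * ‖xi x + sh‖ ^ 2))
      (2 * b * ‖xi x + sh‖ ^ 2) 0 := by
    have h4 : HasDerivAt (fun s : ℝ => (1 + s) ^ 2) (2 * (1 + 0) ^ 1 * 1) 0 := by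
      have := ((hasDerivAt_id (0 : ℝ)).const_add 1).pow 2
      refine this.congr_deriv ?_
      simp
    have h5 := ((h4.mul_const (‖xi x + sh‖ ^ 2)).const_mul b).const_add a
    refine h5.congr_deriv ?_
    ring
  have h6 : (fun s : ℝ => a + b * ((1 + s) ^ 2 * ‖xi x + sh‖ ^ 2)) =ᶠ[𝓝 0] (f ∘ ray x) := by
    filter_upwards [xi_ray hx] with s hs
    rw [Function.comp_apply, hfx _ hs.1, hs.2, norm_mul, Complex.norm_real, mul_pow,
      Real.norm_eq_abs, sq_abs]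
  exact h2.unique (h3.congr_of_eventuallyEq h6.symm)

lemma isCRD_RR {ρ : ℝ} (hρ0 : 0 < ρ) (hρ : ρ ≤ 1 / 2) : IsCompactRegularDomain (RR ρ) := by
  refine ⟨isCompact_RR hρ, ?_⟩
  intro x hx
  rw [frontier_RR hρ0 hρ] at hx
  refine ⟨UU, defn ρ, isOpen_UU, hx.1, contDiffOn_defn ρ, ?_, ?_⟩
  · intro hzero
    have hd : DifferentiableAt ℝ (defn ρ) x :=
      ((contDiffOn_defn ρ).contDiffAt (isOpen_UU.mem_nhds hx.1)).differentiableAt (by simp)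
    have := fderiv_ray hx.1 hd (a := - ρ ^ 2) (b := 1) (fun y _ => by rw [defn_eq]; ring)
    rw [hzero, hx.2] at this
    simp at this
    exact hρ0.ne' this
  · ext y
    constructor
    · rintro ⟨h1, h2⟩
      refine ⟨h2, ?_⟩
      rw [defn_eq]
      have := h1.2
      nlinarith [norm_nonneg (xi y + sh)]
    · rintro ⟨h1, h2⟩
      rw [defn_eq] at h2
      refine ⟨⟨h1, ?_⟩, h1⟩
      have h3 : ‖xi y + sh‖ ^ 2 ≤ ρ ^ 2 := by linarith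
      exact (sq_le_sq₀ (norm_nonneg _) hρ0.le).1 h3

/-! ### Diffeomorphisms -/

lemma smoothOn_of_contDiffOn {E F : Type*} [NormedAddCommGroup E] [NormedSpace ℝ E]
    [NormedAddCommGroup F] [NormedSpace ℝ F] {f : E → F} {A U : Set E} (hU : IsOpen U)
    (hAU : A ⊆ U) (hf : ContDiffOn ℝ ∞ f U) : SmoothOn f A :=
  fun _ hx => ⟨U, hU, hAU hx, f, hf, fun _ _ => rfl⟩

lemma contDiffOn_back (ρ : ℝ) : ContDiffOn ℝ ∞
    (fun q : ℂ × ℂ => Phi (-sh + (ρ : ℂ) * q.1, q.2)) {q | ‖-sh + (ρ : ℂ) * q.1‖ < 1} := by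
  have h : ContDiff ℝ ∞ (fun q : ℂ × ℂ => ((-sh + (ρ : ℂ) * q.1, q.2) : ℂ × ℂ)) := by
    exact (contDiff_const.add (contDiff_const.mul contDiff_fst)).prodMk contDiff_snd
  exact contDiffOn_Phi.comp h.contDiffOn (fun q hq => hq)

lemma isOpen_back (ρ : ℝ) : IsOpen {q : ℂ × ℂ | ‖-sh + (ρ : ℂ) * q.1‖ < 1} := by
  refine isOpen_lt ?_ continuous_const
  fun_prop

lemma contDiffOn_forw (ρ : ℝ) : ContDiffOn ℝ ∞
    (fun x : E3 => (((ρ⁻¹ : ℝ) : ℂ) * (xi x + sh), ww x)) UU :=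
  (contDiffOn_const.mul (contDiffOn_xi.add contDiffOn_const)).prodMk contDiffOn_ww

lemma back_norm {ρ : ℝ} (hρ0 : 0 < ρ) (hρ : ρ ≤ 1 / 2) {v : ℂ} (hv : ‖v‖ ≤ 1) :
    ‖-sh + (ρ : ℂ) * v‖ < 1 := by
  apply lt_one_of hρ
  rw [show -sh + (ρ : ℂ) * v + sh = (ρ : ℂ) * v by ring, norm_mul, Complex.norm_real,
    Real.norm_eq_abs, abs_of_pos hρ0]
  nlinarith [norm_nonneg v]

lemma forw_back {ρ : ℝ} (hρ0 : 0 < ρ) (hρ : ρ ≤ 1 / 2) {v w : ℂ} (hv : ‖v‖ ≤ 1)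
    (hw : ‖w‖ = 1) : xi (Phi (-sh + (ρ : ℂ) * v, w)) + sh = (ρ : ℂ) * v := by
  rw [xi_Phi (back_norm hρ0 hρ hv) hw]; ring

lemma back_forw {ρ : ℝ} (hρ0 : 0 < ρ) {x : E3} (hx : x ∈ UU) :
    Phi (-sh + (ρ : ℂ) * (((ρ⁻¹ : ℝ) : ℂ) * (xi x + sh)), ww x) = x := by
  have hne : (ρ : ℂ) ≠ 0 := by exact_mod_cast hρ0.ne'
  have : -sh + (ρ : ℂ) * (((ρ⁻¹ : ℝ) : ℂ) * (xi x + sh)) = xi x := by
    push_cast
    field_simp
    ring
  rw [this]
  exact Phi_Psi hx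

lemma diffeo_RR {ρ : ℝ} (hρ0 : 0 < ρ) (hρ : ρ ≤ 1 / 2) :
    Diffeomorphic (RR ρ) (disk ×ˢ circ) := by
  refine ⟨fun x => (((ρ⁻¹ : ℝ) : ℂ) * (xi x + sh), ww x),
    fun q => Phi (-sh + (ρ : ℂ) * q.1, q.2), ?_, ?_, ?_, ?_, ?_, ?_⟩
  · exact smoothOn_of_contDiffOn isOpen_UU (fun x hx => hx.1) (contDiffOn_forw ρ)
  · refine smoothOn_of_contDiffOn (isOpen_back ρ) ?_ (contDiffOn_back ρ)
    rintro ⟨v, w⟩ ⟨hv, _⟩
    exact back_norm hρ0 hρ (by simpa [disk] using hv)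
  · intro x hx
    refine ⟨?_, by simpa [circ] using norm_ww hx.1⟩
    have h := hx.2
    simp only [disk, mem_closedBall_zero_iff, norm_mul, Complex.norm_real, norm_inv,
      Real.norm_eq_abs, abs_of_pos hρ0]
    rw [inv_mul_le_iff₀ hρ0]
    simpa using h
  · rintro ⟨v, w⟩ ⟨hv, hw⟩
    have hv' : ‖v‖ ≤ 1 := by simpa [disk] using hv
    have hw' : ‖w‖ = 1 := by simpa [circ] using hw
    refine ⟨Phi_mem (back_norm hρ0 hρ hv') hw', ?_⟩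
    rw [forw_back hρ0 hρ hv' hw', norm_mul, Complex.norm_real, Real.norm_eq_abs,
      abs_of_pos hρ0]
    nlinarith
  · intro x hx
    exact back_forw hρ0 hx.1
  · rintro ⟨v, w⟩ ⟨hv, hw⟩
    have hv' : ‖v‖ ≤ 1 := by simpa [disk] using hv
    have hw' : ‖w‖ = 1 := by simpa [circ] using hw
    have hne : (ρ : ℂ) ≠ 0 := by exact_mod_cast hρ0.ne'
    simp only
    rw [forw_back hρ0 hρ hv' hw', ww_Phi (back_norm hρ0 hρ hv') hw']
    push_cast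
    rw [inv_mul_cancel_left₀ hne]

lemma diffeo_SS {ρ : ℝ} (hρ0 : 0 < ρ) (hρ : ρ ≤ 1 / 2) :
    Diffeomorphic (SS ρ) (circ ×ˢ circ) := by
  refine ⟨fun x => (((ρ⁻¹ : ℝ) : ℂ) * (xi x + sh), ww x),
    fun q => Phi (-sh + (ρ : ℂ) * q.1, q.2), ?_, ?_, ?_, ?_, ?_, ?_⟩
  · exact smoothOn_of_contDiffOn isOpen_UU (fun x hx => hx.1) (contDiffOn_forw ρ)
  · refine smoothOn_of_contDiffOn (isOpen_back ρ) ?_ (contDiffOn_back ρ)
    rintro ⟨v, w⟩ ⟨hv, _⟩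
    have hv' : ‖v‖ = 1 := by simpa [circ] using hv
    exact back_norm hρ0 hρ hv'.le
  · intro x hx
    refine ⟨?_, by simpa [circ] using norm_ww hx.1⟩
    have h := hx.2
    simp only [circ, mem_sphere_iff_norm, sub_zero, norm_mul, Complex.norm_real, norm_inv,
      Real.norm_eq_abs, abs_of_pos hρ0]
    rw [h]
    field_simp
  · rintro ⟨v, w⟩ ⟨hv, hw⟩
    have hv' : ‖v‖ = 1 := by simpa [circ] using hv
    have hw' : ‖w‖ = 1 := by simpa [circ] using hw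
    refine ⟨Phi_mem (back_norm hρ0 hρ hv'.le) hw', ?_⟩
    rw [forw_back hρ0 hρ hv'.le hw', norm_mul, Complex.norm_real, Real.norm_eq_abs,
      abs_of_pos hρ0, hv', mul_one]
  · intro x hx
    exact back_forw hρ0 hx.1
  · rintro ⟨v, w⟩ ⟨hv, hw⟩
    have hv' : ‖v‖ = 1 := by simpa [circ] using hv
    have hw' : ‖w‖ = 1 := by simpa [circ] using hw
    have hne : (ρ : ℂ) ≠ 0 := by exact_mod_cast hρ0.ne'
    simp only
    rw [forw_back hρ0 hρ hv'.le hw', ww_Phi (back_norm hρ0 hρ hv'.le) hw']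
    push_cast
    rw [inv_mul_cancel_left₀ hne]

end

end Run7.h386
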