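import Mathlib
import Pool.Agent.Run7.h386.Region

open Set Filter Topology
open scoped ContDiff ComplexConjugate

namespace Run7.h386

noncomputable section

lemma seg_coord {x z y : E3} (h : y ∈ segment ℝ x z) :
    ∃ t : ℝ, 0 ≤ t ∧ t ≤ 1 ∧ ∀ i, y i = (1 - t) * x i + t * z i := by
  rw [segment_eq_image] at h
  obtain ⟨t, ht, rfl⟩ := h
  exact ⟨t, ht.1, ht.2, fun i => by simp⟩

lemma not_mem_UU_iff (x : E3) : x ∉ UU ↔ 1 ≤ (rr x - 1) ^ 2 + (x 2) ^ 2 := by
  change ¬ (0 < GG x) ↔ _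
  rw [GG, not_lt]
  constructor <;> intro h <;> linarith

/-- Points outside `UU` can be joined to the origin outside `UU`. -/
lemma exterior_UU {x : E3} (hx : x ∉ UU) :
    ∃ t : Set E3, t ⊆ UUᶜ ∧ (0 : E3) ∈ t ∧ x ∈ t ∧ IsPreconnected t := by
  -- `σ = ±1` the sign of `x 2`
  obtain ⟨σ, hσ, hσx⟩ : ∃ σ : ℝ, σ ^ 2 = 1 ∧ 0 ≤ σ * x 2 := by
    rcases le_total 0 (x 2) with h | h
    · exact ⟨1, by norm_num, by linarith⟩
    · exact ⟨-1, by norm_num, by linarith⟩
  set a : E3 := !₂[x 0, x 1, x 2 + σ] with ha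
  set b : E3 := !₂[0, 0, x 2 + σ] with hb
  have ha2 : 1 ≤ (x 2 + σ) ^ 2 := by nlinarith [sq_nonneg (x 2)]
  refine ⟨(segment ℝ x a ∪ segment ℝ a b) ∪ segment ℝ b 0, ?_, ?_, ?_, ?_⟩
  · rintro y ((hy | hy) | hy)
    · obtain ⟨t, ht0, ht1, hc⟩ := seg_coord hy
      have h0 : y 0 = x 0 := by rw [hc 0]; simp [ha]; ring
      have h1 : y 1 = x 1 := by rw [hc 1]; simp [ha]; ring
      have h2 : y 2 = x 2 + t * σ := by rw [hc 2]; simp [ha]; ring
      change y ∉ UU
      rw [not_mem_UU_iff] at hx ⊢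
      have hr : rr y = rr x := by rw [rr, rr, h0, h1]
      rw [hr, h2]
      nlinarith [mul_nonneg ht0 hσx, sq_nonneg (t * σ)]
    · obtain ⟨t, ht0, ht1, hc⟩ := seg_coord hy
      have h2 : y 2 = x 2 + σ := by rw [hc 2]; simp [ha, hb]; ring
      change y ∉ UU
      rw [not_mem_UU_iff, h2]
      nlinarith [sq_nonneg (rr y - 1)]
    · obtain ⟨t, ht0, ht1, hc⟩ := seg_coord hy
      have h0 : y 0 = 0 := by rw [hc 0]; simp [hb]
      have h1 : y 1 = 0 := by rw [hc 1]; simp [hb]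
      change y ∉ UU
      rw [not_mem_UU_iff]
      have hr : rr y = 0 := by rw [rr, h0, h1]; norm_num
      rw [hr]
      nlinarith [sq_nonneg (y 2)]
  · exact Or.inr (right_mem_segment ℝ b 0)
  · exact Or.inl (Or.inl (left_mem_segment ℝ x a))
  · have c1 : IsPreconnected (segment ℝ x a) := (convex_segment x a).isPreconnected
    have c2 : IsPreconnected (segment ℝ a b) := (convex_segment a b).isPreconnected
    have c3 : IsPreconnected (segment ℝ b (0 : E3)) := (convex_segment b 0).isPreconnected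
    exact (c1.union a (right_mem_segment ℝ x a) (left_mem_segment ℝ a b) c2).union b
      (Or.inr (right_mem_segment ℝ a b)) (left_mem_segment ℝ b 0) c3

lemma exterior_RR {ρ : ℝ} (hρ0 : 0 < ρ) : IsPreconnected (RR ρ)ᶜ := by
  apply isPreconnected_of_forall (0 : E3)
  intro x hx
  by_cases hxU : x ∈ UU
  · have hv : ρ < ‖xi x + sh‖ := by
      by_contra hcon
      push Not at hcon
      exact hx ⟨hxU, hcon⟩
    set v := xi x + sh with hvdef
    have hv0 : 0 < ‖v‖ := hρ0.trans hv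
    have hcont : Continuous (fun s : ℝ => ‖-sh + (s : ℂ) * v‖) := by fun_prop
    -- find `T`
    obtain ⟨T, hT1, hT⟩ : ∃ T : ℝ, 1 ≤ T ∧ ‖-sh + (T : ℂ) * v‖ = 1 := by
      set N : ℝ := 2 / ‖v‖ + 1 with hN
      have hN1 : 1 ≤ N := by
        have : 0 ≤ 2 / ‖v‖ := by positivity
        linarith
      have hlo : ‖-sh + ((1 : ℝ) : ℂ) * v‖ ≤ 1 := by
        rw [show -sh + ((1 : ℝ) : ℂ) * v = xi x by rw [hvdef]; push_cast; ring]
        exact (norm_xi_lt hxU).le
      have hhi : 1 ≤ ‖-sh + (N : ℂ) * v‖ := by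
        have h1 : ‖(N : ℂ) * v‖ ≤ ‖-sh + (N : ℂ) * v‖ + ‖sh‖ := by
          calc ‖(N : ℂ) * v‖ = ‖(-sh + (N : ℂ) * v) + sh‖ := by congr 1; ring
            _ ≤ _ := norm_add_le _ _
        rw [norm_mul, Complex.norm_real, Real.norm_eq_abs, abs_of_nonneg (by linarith),
          norm_sh] at h1
        have h2 : N * ‖v‖ = 2 + ‖v‖ := by rw [hN]; field_simp
        linarith
      have := intermediate_value_Icc hN1 hcont.continuousOn
      obtain ⟨T, hT, hT2⟩ := this ⟨hlo, hhi⟩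
      exact ⟨T, hT.1, hT2⟩
    have hle : ∀ s ∈ Icc (1 : ℝ) T, ‖-sh + (s : ℂ) * v‖ ≤ 1 := by
      intro s hs
      rcases hT1.eq_or_lt with h | h
      · have : s = T := le_antisymm hs.2 (h ▸ hs.1)
        rw [this]; exact hT.le
      · -- convexity
        set t : ℝ := (s - 1) / (T - 1) with ht
        have hT1' : 0 < T - 1 := by linarith
        have ht0 : 0 ≤ t := div_nonneg (by linarith [hs.1]) hT1'.le
        have ht1 : t ≤ 1 := (div_le_one hT1').2 (by linarith [hs.2])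
        have hs' : s = (1 - t) + t * T := by rw [ht]; field_simp; ring
        have e : -sh + (s : ℂ) * v
            = ((1 - t : ℝ) : ℂ) * xi x + (t : ℂ) * (-sh + (T : ℂ) * v) := by
          rw [hs', hvdef]; push_cast; ring
        rw [e]
        calc ‖((1 - t : ℝ) : ℂ) * xi x + (t : ℂ) * (-sh + (T : ℂ) * v)‖
            ≤ ‖((1 - t : ℝ) : ℂ) * xi x‖ + ‖(t : ℂ) * (-sh + (T : ℂ) * v)‖ := norm_add_le _ _
          _ = (1 - t) * ‖xi x‖ + t := by
              rw [norm_mul, norm_mul, hT, Complex.norm_real, Complex.norm_real,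
                Real.norm_eq_abs, Real.norm_eq_abs, abs_of_nonneg ht0,
                abs_of_nonneg (by linarith), mul_one]
          _ ≤ 1 := by nlinarith [norm_xi_lt hxU]
    have hw := norm_ww hxU
    set y : E3 := Phi (-sh + (T : ℂ) * v, ww x) with hy
    have hyU : y ∉ UU := by
      change ¬ (0 < GG y)
      rw [hy, GG_Phi hT.le hw, hT]
      norm_num
    obtain ⟨t, ht1, ht2, ht3, ht4⟩ := exterior_UU hyU
    have hUR : UUᶜ ⊆ (RR ρ)ᶜ := fun z hz h => hz h.1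
    have hcurve : Continuous (fun s : ℝ => Phi (-sh + (s : ℂ) * v, ww x)) :=
      continuous_Phi.comp (by fun_prop)
    refine ⟨((fun s : ℝ => Phi (-sh + (s : ℂ) * v, ww x)) '' Icc 1 T) ∪ t, ?_, ?_, ?_, ?_⟩
    · rintro z (⟨s, hs, rfl⟩ | hz)
      · rcases (hle s hs).lt_or_eq with h | h
        · rintro ⟨_, hz⟩
          simp only at hz
          rw [xi_Phi h hw, show -sh + (s : ℂ) * v + sh = (s : ℂ) * v by ring, norm_mul,
            Complex.norm_real, Real.norm_eq_abs, abs_of_nonneg (by linarith [hs.1])] at hz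
          nlinarith [hs.1]
        · apply hUR
          change ¬ (0 < GG _)
          rw [GG_Phi h.le hw, h]
          norm_num
      · exact hUR (ht1 hz)
    · exact Or.inr ht2
    · refine Or.inl ⟨1, ⟨le_refl _, hT1⟩, ?_⟩
      simp only
      rw [show -sh + ((1 : ℝ) : ℂ) * v = xi x by rw [hvdef]; push_cast; ring]
      exact Phi_Psi hxU
    · have c1 : IsPreconnected ((fun s : ℝ => Phi (-sh + (s : ℂ) * v, ww x)) '' Icc 1 T) :=
        isPreconnected_Icc.image _ hcurve.continuousOn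
      exact c1.union y ⟨T, ⟨hT1, le_refl _⟩, rfl⟩ ht3 ht4
  · obtain ⟨t, ht1, ht2, ht3, ht4⟩ := exterior_UU hxU
    exact ⟨t, fun z hz h => ht1 hz h.1, ht2, ht3, ht4⟩

lemma isPreconnected_circ : IsPreconnected circ :=
  isPreconnected_sphere (by simp) _ _

lemma interior_connected {ρ : ℝ} (hρ0 : 0 < ρ) (hρ : ρ ≤ 1 / 2) :
    IsPreconnected (interior (RR ρ)) := by
  have h : interior (RR ρ) = Phi '' ({ξ : ℂ | ‖ξ + sh‖ < ρ} ×ˢ circ) := by
    rw [interior_RR hρ0]
    ext x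
    constructor
    · rintro ⟨hx, h⟩
      refine ⟨Psi x, ⟨h, ?_⟩, Phi_Psi hx⟩
      simpa [circ, Psi] using norm_ww hx
    · rintro ⟨⟨ξ, w⟩, ⟨h1, h2⟩, rfl⟩
      have h1' : ‖ξ + sh‖ < ρ := h1
      have hw : ‖w‖ = 1 := by simpa [circ] using h2
      have hξ := lt_one_of hρ h1'.le
      exact ⟨Phi_mem hξ hw, by rw [xi_Phi hξ hw]; exact h1'⟩
  rw [h, ball_sh]
  exact ((convex_ball _ _).isPreconnected.prod isPreconnected_circ).image _
    continuous_Phi.continuousOn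

lemma SS_nonempty {ρ : ℝ} (hρ0 : 0 ≤ ρ) (hρ : ρ ≤ 1 / 2) : (SS ρ).Nonempty := by
  rw [SS_eq_image hρ]
  refine Nonempty.image _ (Nonempty.prod ⟨-sh + (ρ : ℂ), ?_⟩ ⟨1, by simp [circ]⟩)
  simp [abs_of_nonneg hρ0]

lemma isFilling_RR {ρ : ℝ} (hρ0 : 0 < ρ) (hρ : ρ ≤ 1 / 2) : IsFilling (SS ρ) (RR ρ) :=
  isFilling_of (isCRD_RR hρ0 hρ) (frontier_RR hρ0 hρ) (SS_nonempty hρ0.le hρ)
    (interior_connected hρ0 hρ) (exterior_RR hρ0)

end

end Run7.h386
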