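import Mathlib
import Pool.Agent.Run7.h386.Exterior

open Set Filter Topology
open scoped ContDiff ComplexConjugate

namespace Run7.h386

noncomputable section

/-- The solid toroidal domain. -/
def MM : Set E3 := RR (1 / 2)

lemma isCRD_MM : IsCompactRegularDomain MM := isCRD_RR (by norm_num) le_rfl

lemma isSolidToroidalDomain_MM : IsSolidToroidalDomain MM :=
  ⟨isCRD_MM, diffeo_RR (by norm_num) le_rfl⟩

lemma MM_sub : MM ⊆ UU := fun _ hx => hx.1

lemma fderivWithin_MM {F : Type*} [NormedAddCommGroup F] [NormedSpace ℝ F] {f : E3 → F} {x : E3}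
    (hx : x ∈ MM) (hf : DifferentiableAt ℝ f x) : fderivWithin ℝ f MM x = fderiv ℝ f x :=
  hf.fderivWithin (crd_uniqueDiffOn isCRD_MM x hx)

lemma gradientWithin_apply {f : E3 → ℝ} {s : Set E3} {x : E3} (i : Fin 3) :
    (gradientWithin f s x) i = fderivWithin ℝ f s x (ee i) := by
  have h : inner ℝ (gradientWithin f s x) (ee i) = fderivWithin ℝ f s x (ee i) := by
    rw [gradientWithin, InnerProductSpace.toDual_symm_apply]
  have h3 : inner ℝ (gradientWithin f s x) (ee i) = (gradientWithin f s x) i := by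
    rw [ee, EuclideanSpace.inner_single_right]
    simp
  rw [← h3, h]

lemma tangent_MM : TangentToBoundary MM fieldX := by
  intro x hx
  have hfr : frontier MM = SS (1 / 2) := frontier_RR (by norm_num) le_rfl
  rw [hfr] at hx ⊢
  have hξ := norm_xi_lt hx.1
  have hw := norm_ww hx.1
  have hflow := flow hξ hw
  have hPhi : Phi (xi x, ww x) = x := Phi_Psi hx.1
  rw [hPhi] at hflow
  have h0 : Phi (xi x, ww x * Complex.exp (((0 : ℝ) : ℂ) * Complex.I)) = x := by
    simp [hPhi]
  have := mem_tangentCone_of_curve (S := SS (1 / 2)) hflow ?_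
  · simpa only [h0] using this
  · intro t
    have hwt : ‖ww x * Complex.exp ((t : ℂ) * Complex.I)‖ = 1 := by
      rw [norm_mul, hw, Complex.norm_exp_ofReal_mul_I, one_mul]
    exact ⟨Phi_mem hξ hwt, by rw [xi_Phi hξ hwt]; exact hx.2⟩

lemma isMHDEquilibrium_MM : IsMHDEquilibrium MM fieldX pres where
  smooth_field := smoothOn_of_contDiffOn isOpen_UU MM_sub contDiffOn_fieldX
  smooth_pressure := smoothOn_of_contDiffOn isOpen_UU MM_sub contDiffOn_pres
  force_balance := by
    intro x hx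
    have hU := MM_sub hx
    have hD := fderivWithin_MM hx (differentiableAt_fieldX hU)
    obtain ⟨f0, f1, f2⟩ := force_coord hU
    have hj0 : ∀ j, jac MM fieldX x 0 j = dX0 x (ee j) := fun j => by
      rw [jac, hD, fderiv_fieldX_0 hU]
    have hj1 : ∀ j, jac MM fieldX x 1 j = dX1 x (ee j) := fun j => by
      rw [jac, hD, fderiv_fieldX_1 hU]
    have hj2 : ∀ j, jac MM fieldX x 2 j = dX2 x (ee j) := fun j => by
      rw [jac, hD, fderiv_fieldX_2 hU]
    have hP := fderivWithin_MM hx (differentiableAt_pres hU)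
    ext i
    rw [gradientWithin_apply, hP]
    fin_cases i
    · simp only [Fin.zero_eta]
      rw [← f0]
      simp [cross, curl, hj0, hj1, hj2]
    · simp only [Fin.mk_one]
      rw [← f1]
      simp [cross, curl, hj0, hj1, hj2]
    · simp only [Fin.reduceFinMk]
      rw [← f2]
      simp [cross, curl, hj0, hj1, hj2]
  div_free := by
    intro x hx
    have hU := MM_sub hx
    have hD := fderivWithin_MM hx (differentiableAt_fieldX hU)
    rw [divergence, jac, jac, jac, hD, fderiv_fieldX_0 hU, fderiv_fieldX_1 hU, fderiv_fieldX_2 hU]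
    exact div_zero hU
  tangent := tangent_MM

/-! ### Level sets -/

lemma pres_eq' {x : E3} (hx : x ∈ UU) : pres x = -(71 / 32) + (-2) * ‖xi x + sh‖ ^ 2 := by
  rw [pres_eq hx, sh]; ring

lemma SS_sub {ρ : ℝ} (hρ : ρ ≤ 1 / 2) : SS ρ ⊆ MM := fun _ hx => ⟨hx.1, hx.2.le.trans hρ⟩

lemma levelSet_eq {c : ℝ} {x : E3} (hx : x ∈ levelSet MM pres c) :
    levelSet MM pres c = SS ‖xi x + sh‖ := by
  obtain ⟨hxM, hxc⟩ := hx
  rw [pres_eq' (MM_sub hxM)] at hxc
  ext y
  constructor
  · rintro ⟨hyM, hyc⟩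
    rw [pres_eq' (MM_sub hyM)] at hyc
    refine ⟨MM_sub hyM, ?_⟩
    have : ‖xi y + sh‖ ^ 2 = ‖xi x + sh‖ ^ 2 := by linarith
    exact (sq_eq_sq₀ (norm_nonneg _) (norm_nonneg _)).1 this
  · rintro ⟨hyU, hy⟩
    have hyM : y ∈ MM := ⟨hyU, by rw [hy]; exact hxM.2⟩
    refine ⟨hyM, ?_⟩
    rw [pres_eq' hyU, hy]
    exact hxc

lemma regular_SS {ρ : ℝ} (hρ0 : 0 < ρ) (hρ : ρ ≤ 1 / 2) : IsRegularLevelSet MM pres (SS ρ) := by
  obtain ⟨x, hx⟩ := SS_nonempty hρ0.le hρ
  refine ⟨⟨x, hx⟩, ⟨pres x, ?_⟩, ?_⟩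
  · have : x ∈ levelSet MM pres (pres x) := ⟨SS_sub hρ hx, rfl⟩
    rw [levelSet_eq this, hx.2]
  · intro y hy hzero
    have hyM := SS_sub hρ hy
    rw [fderivWithin_MM hyM (differentiableAt_pres hy.1)] at hzero
    have := fderiv_ray hy.1 (differentiableAt_pres hy.1) (fun z hz => pres_eq' hz)
    rw [hzero, hy.2] at this
    have h2 : (0 : ℝ) = 2 * (-2) * ρ ^ 2 := this
    nlinarith [sq_pos_of_pos hρ0]

lemma of_regular {S : Set E3} (hS : IsRegularLevelSet MM pres S) :
    ∃ ρ : ℝ, 0 < ρ ∧ ρ ≤ 1 / 2 ∧ S = SS ρ := by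
  obtain ⟨⟨x, hx⟩, ⟨c, hc⟩, hreg⟩ := hS
  have hxl : x ∈ levelSet MM pres c := hc ▸ hx
  have hSS := levelSet_eq hxl
  refine ⟨‖xi x + sh‖, ?_, hxl.1.2, hc.trans hSS⟩
  rcases (norm_nonneg (xi x + sh)).lt_or_eq with h | h
  · exact h
  · exfalso
    have hU := MM_sub hxl.1
    apply hreg x hx
    rw [fderivWithin_MM hxl.1 (differentiableAt_pres hU)]
    apply IsLocalMax.fderiv_eq_zero
    filter_upwards [isOpen_UU.mem_nhds hU] with y hy
    rw [pres_eq' hy, pres_eq' hU, ← h]
    nlinarith [sq_nonneg ‖xi y + sh‖]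

lemma curve_SS_zero : IsCompactEmbeddedCurve (SS 0) := by
  refine ⟨isCompact_SS (by norm_num), ?_⟩
  intro x hx
  refine ⟨UU, fun y => xi y + sh, isOpen_UU, hx.1, contDiffOn_xi.add contDiffOn_const, ?_, ?_⟩
  · intro v
    have hd : DifferentiableAt ℝ (fun y => xi y + sh) x :=
      ((contDiffOn_xi.add contDiffOn_const).contDiffAt
        (isOpen_UU.mem_nhds hx.1)).differentiableAt (by simp)
    have hξ := norm_xi_lt hx.1
    have hw := norm_ww hx.1
    have hline : HasDerivAt (fun s : ℝ => xi x + (s : ℂ) * v) v 0 := by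
      simpa using ((Complex.ofRealCLM.hasDerivAt (x := (0 : ℝ))).mul_const v).const_add (xi x)
    have hc : DifferentiableAt ℝ (fun s : ℝ => Phi (xi x + (s : ℂ) * v, ww x)) 0 := by
      have h1 : DifferentiableAt ℝ Phi (xi x + ((0 : ℝ) : ℂ) * v, ww x) := by
        apply differentiableAt_Phi
        simpa using hξ
      have hpair : DifferentiableAt ℝ (fun s : ℝ => ((xi x + (s : ℂ) * v, ww x) : ℂ × ℂ)) 0 :=
        hline.differentiableAt.prodMk (differentiableAt_const _)
      exact DifferentiableAt.comp (g := Phi) (0 : ℝ) h1 hpair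
    have h0 : Phi (xi x + ((0 : ℝ) : ℂ) * v, ww x) = x := by
      rw [show xi x + ((0 : ℝ) : ℂ) * v = xi x by simp]
      exact Phi_Psi hx.1
    have hd' : DifferentiableAt ℝ (fun y => xi y + sh) (Phi (xi x + ((0 : ℝ) : ℂ) * v, ww x)) := by
      rw [h0]; exact hd
    have h2 := hd'.hasFDerivAt.comp_hasDerivAt (0 : ℝ) hc.hasDerivAt
    rw [h0] at h2
    refine ⟨_, h2.unique ?_⟩
    have h3 : (fun s : ℝ => (xi x + sh) + (s : ℂ) * v) =ᶠ[𝓝 0]
        ((fun y => xi y + sh) ∘ fun s : ℝ => Phi (xi x + (s : ℂ) * v, ww x)) := by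
      have hcn : Continuous (fun s : ℝ => ‖xi x + (s : ℂ) * v‖) := by fun_prop
      have hlt : ∀ᶠ s : ℝ in 𝓝 (0 : ℝ), ‖xi x + (s : ℂ) * v‖ < 1 := by
        have h := hcn.tendsto (0 : ℝ)
        refine h.eventually (gt_mem_nhds ?_)
        simpa using hξ
      filter_upwards [hlt] with s hs
      simp only [Function.comp_apply]
      rw [xi_Phi hs hw]
      ring
    have h4 : HasDerivAt (fun s : ℝ => (xi x + sh) + (s : ℂ) * v) v 0 := by
      simpa using ((Complex.ofRealCLM.hasDerivAt (x := (0 : ℝ))).mul_const v).const_add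
        (xi x + sh)
    exact h4.congr_of_eventuallyEq h3.symm
  · ext y
    constructor
    · rintro ⟨h1, h2⟩
      exact ⟨h2, norm_eq_zero.1 h1.2⟩
    · rintro ⟨h1, h2⟩
      exact ⟨⟨h1, norm_eq_zero.2 h2⟩, h1⟩

lemma nested_MM : IsToroidallyNested MM pres := by
  refine ⟨SS 0, curve_SS_zero, ?_, ?_, ?_, ?_⟩
  · intro x hx
    rw [MM, interior_RR (by norm_num)]
    exact ⟨hx.1, by rw [hx.2]; norm_num⟩
  · rintro c ⟨x, hx⟩
    have h := levelSet_eq hx
    rcases (norm_nonneg (xi x + sh)).lt_or_eq with h0 | h0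
    · left
      rw [h]
      exact ⟨regular_SS h0 hx.1.2, diffeo_SS h0 hx.1.2⟩
    · right
      rw [h, ← h0]
  · intro S₁ S₂ h₁ h₂
    obtain ⟨ρ₁, hρ₁, hρ₁', rfl⟩ := of_regular h₁
    obtain ⟨ρ₂, hρ₂, hρ₂', rfl⟩ := of_regular h₂
    refine ⟨RR ρ₁, RR ρ₂, isFilling_RR hρ₁ hρ₁', isFilling_RR hρ₂ hρ₂', ?_⟩
    rcases le_total ρ₁ ρ₂ with h | h
    · exact Or.inl fun x hx => ⟨hx.1, hx.2.trans h⟩
    · exact Or.inr fun x hx => ⟨hx.1, hx.2.trans h⟩
  · intro S h
    obtain ⟨ρ, hρ, hρ', rfl⟩ := of_regular h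
    refine ⟨RR ρ, isFilling_RR hρ hρ', ?_⟩
    intro x hx
    rw [interior_RR hρ]
    exact ⟨hx.1, by rw [hx.2]; exact hρ⟩

/-! ### Lack of axisymmetry -/

lemma fderiv_rotationField (a w x v : E3) : fderiv ℝ (rotationField a w) x v = cross w v := by
  have hL : ∀ i, ∃ L : E3 →L[ℝ] ℝ, ∀ u, L u = cross w u i := by
    intro i
    fin_cases i
    · exact ⟨w 1 • (EuclideanSpace.proj 2 : E3 →L[ℝ] ℝ) - w 2 • EuclideanSpace.proj 1,
        fun u => by simp [cross]⟩
    · exact ⟨w 2 • (EuclideanSpace.proj 0 : E3 →L[ℝ] ℝ) - w 0 • EuclideanSpace.proj 2,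
        fun u => by simp [cross]⟩
    · exact ⟨w 0 • (EuclideanSpace.proj 1 : E3 →L[ℝ] ℝ) - w 1 • EuclideanSpace.proj 0,
        fun u => by simp [cross]⟩
  have hdi : ∀ i, HasFDerivAt (fun y => rotationField a w y i) (hL i).choose x := by
    intro i
    have h1 := (hL i).choose_spec
    have h2 : (fun y => rotationField a w y i) = fun y => (hL i).choose (y - a) := by
      funext y
      rw [h1, rotationField]
    rw [h2]
    exact (hL i).choose.hasFDerivAt.comp x ((hasFDerivAt_id x).sub_const a)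
  have hd : DifferentiableAt ℝ (rotationField a w) x :=
    differentiableAt_euclidean.2 fun i => (hdi i).differentiableAt
  ext i
  rw [fderiv_comp_coord hd, (hdi i).fderiv]
  exact (hL i).choose_spec v

lemma differentiableAt_rotationField (a w x : E3) : DifferentiableAt ℝ (rotationField a w) x := by
  have c0 := (contDiff_coord 0).differentiable (by simp)
  have c1 := (contDiff_coord 1).differentiable (by simp)
  have c2 := (contDiff_coord 2).differentiable (by simp)
  rw [differentiableAt_euclidean]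
  intro i
  fin_cases i
  · simp [rotationField, cross]; fun_prop
  · simp [rotationField, cross]; fun_prop
  · simp [rotationField, cross]; fun_prop

lemma not_axisymmetric : ¬ IsAxisymmetric MM fieldX pres := by
  rintro ⟨a, w, hw, -, hL, hp⟩
  -- consequences at each point of `M`
  have key : ∀ x ∈ MM,
      (x 0 * (w 1 * (x 2 - a 2) - w 2 * (x 1 - a 1)) + x 1 * (w 2 * (x 0 - a 0) - w 0 * (x 2 - a 2))
        + 4 * x 2 * (w 0 * (x 1 - a 1) - w 1 * (x 0 - a 0)) = 0) ∧
      (2 * ((x 0 / 2) * (w 1 * (x 2 - a 2) - w 2 * (x 1 - a 1))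
        + 2 * x 1 * (w 2 * (x 0 - a 0) - w 0 * (x 2 - a 2))) = w 0 * X1 x - w 1 * X0 x) := by
    intro x hx
    have hU := MM_sub hx
    have h1 := hL x hx
    rw [VectorField.lieBracketWithin, fderivWithin_MM hx (differentiableAt_fieldX hU),
      fderivWithin_MM hx (differentiableAt_rotationField a w x), fderiv_rotationField,
      sub_eq_zero] at h1
    have h2 := hp x hx
    rw [fderivWithin_MM hx (differentiableAt_pres hU), fderiv_pres hU] at h2
    set k := rotationField a w x with hk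
    have e0 : dX0 x k = cross w (fieldX x) 0 := by rw [← fderiv_fieldX_0 hU, h1]
    have e1 : dX1 x k = cross w (fieldX x) 1 := by rw [← fderiv_fieldX_1 hU, h1]
    have e2 : dX2 x k = cross w (fieldX x) 2 := by rw [← fderiv_fieldX_2 hU, h1]
    have k0 : k 0 = w 1 * (x 2 - a 2) - w 2 * (x 1 - a 1) := by simp [hk, rotationField, cross]
    have k1 : k 1 = w 2 * (x 0 - a 0) - w 0 * (x 2 - a 2) := by simp [hk, rotationField, cross]
    have k2 : k 2 = w 0 * (x 1 - a 1) - w 1 * (x 0 - a 0) := by simp [hk, rotationField, cross]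
    constructor
    · rw [e0, e1, e2] at h2
      simp only [cross, fieldX_zero, fieldX_one, fieldX_two] at h2
      simp at h2
      rw [← k0, ← k1, ← k2]
      linarith
    · rw [dX2, drr, k0, k1] at e2
      simp only [cross, fieldX_zero, fieldX_one, fieldX_two] at e2
      simpa using e2
  -- an interior point
  obtain ⟨y, hy⟩ : (interior MM).Nonempty := by
    obtain ⟨x, hx⟩ := SS_nonempty (le_refl (0 : ℝ)) (by norm_num)
    refine ⟨x, ?_⟩
    rw [MM, interior_RR (by norm_num)]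
    exact ⟨hx.1, by rw [hx.2]; norm_num⟩
  obtain ⟨ε, hε, hball⟩ := Metric.isOpen_iff.1 isOpen_interior y hy
  set t : ℝ := ε / 3 with ht
  have ht0 : 0 < t := by positivity
  have hmem : ∀ i j : Fin 3, ∀ s r : ℝ, (s = 0 ∨ s = t) → (r = 0 ∨ r = t) →
      y + s • ee i + r • ee j ∈ MM := by
    intro i j s r hs hr
    apply interior_subset
    apply hball
    rw [Metric.mem_ball, dist_eq_norm]
    have e : y + s • ee i + r • ee j - y = s • ee i + r • ee j := by abel
    rw [e]
    have h1 : ‖s • ee i‖ ≤ t := by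
      rw [norm_smul]
      simp only [ee, PiLp.norm_single, norm_one, mul_one, Real.norm_eq_abs]
      rcases hs with rfl | rfl
      · simpa using ht0.le
      · exact (abs_of_pos ht0).le
    have h2 : ‖r • ee j‖ ≤ t := by
      rw [norm_smul]
      simp only [ee, PiLp.norm_single, norm_one, mul_one, Real.norm_eq_abs]
      rcases hr with rfl | rfl
      · simpa using ht0.le
      · exact (abs_of_pos ht0).le
    calc ‖s • ee i + r • ee j‖ ≤ ‖s • ee i‖ + ‖r • ee j‖ := norm_add_le _ _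
      _ ≤ t + t := add_le_add h1 h2
      _ < ε := by rw [ht]; linarith
  have hsq : t ^ 2 ≠ 0 := by positivity
  -- second differences
  have hw1 : w 1 = 0 := by
    have a00 := (key _ (hmem 0 2 0 0 (Or.inl rfl) (Or.inl rfl))).1
    have a10 := (key _ (hmem 0 2 t 0 (Or.inr rfl) (Or.inl rfl))).1
    have a01 := (key _ (hmem 0 2 0 t (Or.inl rfl) (Or.inr rfl))).1
    have a11 := (key _ (hmem 0 2 t t (Or.inr rfl) (Or.inr rfl))).1
    simp [ee] at a00 a10 a01 a11
    have : w 1 * t ^ 2 = 0 := by linear_combination (-1 / 3) * (a11 - a10 - a01 + a00)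
    exact (mul_eq_zero.1 this).resolve_right hsq
  have hw0 : w 0 = 0 := by
    have a00 := (key _ (hmem 1 2 0 0 (Or.inl rfl) (Or.inl rfl))).1
    have a10 := (key _ (hmem 1 2 t 0 (Or.inr rfl) (Or.inl rfl))).1
    have a01 := (key _ (hmem 1 2 0 t (Or.inl rfl) (Or.inr rfl))).1
    have a11 := (key _ (hmem 1 2 t t (Or.inr rfl) (Or.inr rfl))).1
    simp [ee] at a00 a10 a01 a11
    have : w 0 * t ^ 2 = 0 := by linear_combination (1 / 3) * (a11 - a10 - a01 + a00)
    exact (mul_eq_zero.1 this).resolve_right hsq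
  have hw2 : w 2 = 0 := by
    have a00 := (key _ (hmem 0 1 0 0 (Or.inl rfl) (Or.inl rfl))).2
    have a10 := (key _ (hmem 0 1 t 0 (Or.inr rfl) (Or.inl rfl))).2
    have a01 := (key _ (hmem 0 1 0 t (Or.inl rfl) (Or.inr rfl))).2
    have a11 := (key _ (hmem 0 1 t t (Or.inr rfl) (Or.inr rfl))).2
    simp only [hw0, hw1, zero_mul, sub_zero, zero_sub] at a00 a10 a01 a11
    simp [ee] at a00 a10 a01 a11
    have : w 2 * t ^ 2 = 0 := by linear_combination (2 / 3) * (a11 - a10 - a01 + a00)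
    exact (mul_eq_zero.1 this).resolve_right hsq
  apply hw
  ext i
  fin_cases i
  · simpa using hw0
  · simpa using hw1
  · simpa using hw2

end

end Run7.h386
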